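import Mathlib

set_option autoImplicit false

/-!
Independent uniform labels on a countable set.
-/

open MeasureTheory ProbabilityTheory

namespace Pool.Agent.H33.TG

/-- the label law: uniform on the unit interval -/
noncomputable def lab : Measure ℝ := (volume : Measure ℝ).restrict (Set.Icc 0 1)

instance : IsProbabilityMeasure lab := ⟨by simp [lab]⟩

instance : NullSingletonClass lab := by unfold lab; infer_instance

/-- independent uniform labels -/
noncomputable def bern (G : Type) : Measure (G → ℝ) := Measure.infinitePi (fun _ : G => lab)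

instance (G : Type) : IsProbabilityMeasure (bern G) := by unfold bern; infer_instance

variable {G : Type}

lemma bern_reindex (e : G → G) (he : Function.Injective e) :
    MeasurePreserving (fun ω : G → ℝ => fun i => ω (e i)) (bern G) (bern G) := by
  refine ⟨by fun_prop, ?_⟩
  exact Measure.map_infinitePi_infinitePi_of_inj (P := fun _ : G => lab) he

lemma bern_eq_zero {g g' : G} (h : g ≠ g') : bern G {ω | ω g = ω g'} = 0 := by
  have h1 := Measure.infinitePi_map_eval_prod (P := fun _ : G => lab) h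
  have hm : MeasurableSet {p : ℝ × ℝ | p.1 = p.2} := measurableSet_eq_fun measurable_fst measurable_snd
  have h2 : bern G {ω | ω g = ω g'} = (bern G).map (fun ω => (ω g, ω g')) {p : ℝ × ℝ | p.1 = p.2} := by
    rw [Measure.map_apply (by fun_prop) hm]; rfl
  rw [h2, bern, h1, Measure.measure_prod_null hm]
  refine Filter.Eventually.of_forall ?_
  intro x
  have : Prod.mk x ⁻¹' {p : ℝ × ℝ | p.1 = p.2} = {x} := by
    ext y; simp [eq_comm]
  show lab (Prod.mk x ⁻¹' {p : ℝ × ℝ | p.1 = p.2}) = 0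
  rw [this]
  exact measure_singleton x

lemma bern_inj [Countable G] : ∀ᵐ ω ∂bern G, Function.Injective ω := by
  have : ∀ᵐ ω ∂bern G, ∀ p : {p : G × G // p.1 ≠ p.2}, ω p.1.1 ≠ ω p.1.2 := by
    rw [ae_all_iff]
    rintro ⟨p, hp⟩
    have := bern_eq_zero hp
    rw [ae_iff]
    simpa using this
  filter_upwards [this] with ω hω g g' hgg
  by_contra hne
  exact hω ⟨(g, g'), hne⟩ hgg

/-- the event that `u` carries the strictly smallest label of `U` -/
def Emin (U : Finset G) (u : G) : Set (G → ℝ) := {ω | ∀ v ∈ U, v ≠ u → ω u < ω v}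

lemma measurableSet_Emin (U : Finset G) (u : G) : MeasurableSet (Emin U u) := by
  have : Emin U u = ⋂ v ∈ U, {ω : G → ℝ | v ≠ u → ω u < ω v} := by
    ext ω; simp [Emin]
  rw [this]
  apply Finset.measurableSet_biInter
  intro v _
  by_cases h : v = u
  · have : {ω : G → ℝ | v ≠ u → ω u < ω v} = Set.univ := by ext ω; simp [h]
    rw [this]; exact MeasurableSet.univ
  · have : {ω : G → ℝ | v ≠ u → ω u < ω v} = {ω : G → ℝ | ω u < ω v} := by ext ω; simp [h]
    rw [this]; exact measurableSet_lt (measurable_pi_apply u) (measurable_pi_apply v)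

lemma Emin_disjoint {U : Finset G} {u u' : G} (hu : u ∈ U) (hu' : u' ∈ U) (h : u ≠ u') :
    Disjoint (Emin U u) (Emin U u') := by
  rw [Set.disjoint_left]
  intro ω h1 h2
  have a1 := h1 u' hu' h.symm
  have a2 := h2 u hu h
  exact absurd a1 (not_lt.2 a2.le)

lemma exists_Emin {U : Finset G} (hU : U.Nonempty) {ω : G → ℝ} (hω : Function.Injective ω) :
    ∃ u ∈ U, ω ∈ Emin U u := by
  obtain ⟨u, hu, hmin⟩ := U.exists_min_image ω hU
  refine ⟨u, hu, ?_⟩
  intro v hv hvu
  exact lt_of_le_of_ne (hmin v hv) (fun h => hvu (hω h).symm)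

lemma sum_Emin_le (U : Finset G) (D : Set (G → ℝ)) (hD : MeasurableSet D) :
    ∑ u ∈ U, bern G (D ∩ Emin U u) ≤ bern G D := by
  rw [← measure_biUnion_finset (μ := bern G)]
  · apply measure_mono
    intro ω hω
    simp only [Set.mem_iUnion] at hω
    obtain ⟨u, _, h⟩ := hω
    exact h.1
  · intro u hu u' hu' h
    exact ((Emin_disjoint hu hu' h).mono Set.inter_subset_right Set.inter_subset_right)
  · intro u _
    exact hD.inter (measurableSet_Emin U u)

lemma bern_Emin_eq (U : Finset G) {u u' : G} (hu : u ∈ U) (hu' : u' ∈ U) :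
    bern G (Emin U u) = bern G (Emin U u') := by
  classical
  have h := (bern_reindex (Equiv.swap u u') (Equiv.swap u u').injective).measure_preimage
    (measurableSet_Emin U u').nullMeasurableSet
  rw [← h]
  congr 1
  ext ω
  have hsw : ∀ v ∈ U, Equiv.swap u u' v ∈ U := by
    intro v hv
    by_cases h1 : v = u
    · subst h1; rw [Equiv.swap_apply_left]; exact hu'
    · by_cases h2 : v = u'
      · subst h2; rw [Equiv.swap_apply_right]; exact hu
      · rw [Equiv.swap_apply_of_ne_of_ne h1 h2]; exact hv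
  show (∀ v ∈ U, v ≠ u → ω u < ω v) ↔
    (∀ v ∈ U, v ≠ u' → ω (Equiv.swap u u' u') < ω (Equiv.swap u u' v))
  rw [Equiv.swap_apply_right]
  constructor
  · intro h v hv hvu
    apply h _ (hsw v hv)
    intro h'
    apply hvu
    have := congrArg (Equiv.swap u u') h'
    rwa [Equiv.swap_apply_self, Equiv.swap_apply_left] at this
  · intro h v hv hvu
    have := h _ (hsw v hv) (by
      intro h'
      apply hvu
      have := congrArg (Equiv.swap u u') h'
      rwa [Equiv.swap_apply_self, Equiv.swap_apply_right] at this)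
    rwa [Equiv.swap_apply_self] at this

lemma bern_Emin_le (U : Finset G) {u : G} (hu : u ∈ U) :
    bern G (Emin U u) ≤ (U.card : ENNReal)⁻¹ := by
  have h1 := sum_Emin_le U Set.univ MeasurableSet.univ
  simp only [Set.univ_inter, measure_univ] at h1
  have h2 : ∑ v ∈ U, bern G (Emin U v) = U.card * bern G (Emin U u) := by
    rw [Finset.sum_congr rfl (fun v hv => bern_Emin_eq U hv hu), Finset.sum_const, nsmul_eq_mul]
  rw [h2] at h1
  have hc : (U.card : ENNReal) ≠ 0 := by
    have : U.card ≠ 0 := Finset.card_ne_zero_of_mem hu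
    exact_mod_cast this
  rw [ENNReal.le_inv_iff_mul_le, mul_comm]
  exact h1

lemma lab_Iio {δ : ℝ} (h0 : 0 ≤ δ) (h1 : δ ≤ 1) : lab (Set.Iio δ) = ENNReal.ofReal δ := by
  rw [lab, Measure.restrict_apply measurableSet_Iio]
  have : Set.Iio δ ∩ Set.Icc 0 1 = Set.Ico 0 δ := by
    ext x
    simp only [Set.mem_inter_iff, Set.mem_Iio, Set.mem_Icc, Set.mem_Ico]
    constructor
    · rintro ⟨a, b, c⟩; exact ⟨b, a⟩
    · rintro ⟨a, b⟩; exact ⟨b, a, by linarith⟩
  rw [this, Real.volume_Ico]; simp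

/-- box formula -/
lemma bern_box (S : Finset G) {δ : ℝ} (h0 : 0 ≤ δ) (h1 : δ ≤ 1) :
    bern G {ω | ∀ s ∈ S, ω s < δ} = ENNReal.ofReal δ ^ S.card := by
  have h := Measure.infinitePi_pi (fun _ : G => lab) (s := S) (t := fun _ => Set.Iio δ)
    (fun _ _ => measurableSet_Iio)
  have e : {ω : G → ℝ | ∀ s ∈ S, ω s < δ} = Set.pi (S : Set G) (fun _ => Set.Iio δ) := by
    ext ω; simp [Set.mem_pi]
  rw [e, bern, h, Finset.prod_const, lab_Iio h0 h1]

lemma measurableSet_box (S : Finset G) (δ : ℝ) : MeasurableSet {ω : G → ℝ | ∀ s ∈ S, ω s < δ} := by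
  have : {ω : G → ℝ | ∀ s ∈ S, ω s < δ} = ⋂ s ∈ S, {ω : G → ℝ | ω s < δ} := by
    ext ω; simp
  rw [this]
  exact Finset.measurableSet_biInter _
    (fun s _ => measurableSet_lt (measurable_pi_apply s) measurable_const)

lemma bern_nbox (S : Finset G) {δ : ℝ} (h0 : 0 ≤ δ) (h1 : δ ≤ 1) (e : ℕ) (he : S.card ≤ e) :
    bern G {ω | ∃ s ∈ S, δ ≤ ω s} ≤ 1 - ENNReal.ofReal δ ^ e := by
  have h : {ω : G → ℝ | ∃ s ∈ S, δ ≤ ω s} = {ω : G → ℝ | ∀ s ∈ S, ω s < δ}ᶜ := by
    ext ω; simp
  rw [h, prob_compl_eq_one_sub (measurableSet_box S δ), bern_box S h0 h1]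
  apply tsub_le_tsub_left
  exact pow_le_pow_right_of_le_one' (ENNReal.ofReal_le_one.2 h1) he

/-- independence bound for disjoint blocks -/
lemma bern_blocks {ι : Type*} [DecidableEq G] (X : Finset ι) (S : ι → Finset G)
    (hd : ∀ x ∈ X, ∀ y ∈ X, x ≠ y → Disjoint (S x) (S y)) {δ : ℝ} (h0 : 0 ≤ δ) (h1 : δ ≤ 1)
    (e : ℕ) (he : ∀ x ∈ X, (S x).card ≤ e) :
    bern G {ω | ∀ x ∈ X, ∃ s ∈ S x, δ ≤ ω s} ≤ (1 - ENNReal.ofReal δ ^ e) ^ X.card := by
  classical
  induction X using Finset.induction_on with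
  | empty => simp
  | insert a X ha ih =>
    have hind : iIndepFun (fun (i : G) (ω : G → ℝ) => ω i) (bern G) :=
      iIndepFun_infinitePi (P := fun _ : G => lab) (X := fun _ x => x) (fun _ => measurable_id)
    have hdisj : Disjoint (S a) (X.biUnion S) := by
      rw [Finset.disjoint_biUnion_right]
      intro y hy
      exact hd a (Finset.mem_insert_self _ _) y (Finset.mem_insert_of_mem hy)
        (fun h => ha (h ▸ hy))
    have hI := hind.indepFun_finset (S a) (X.biUnion S) hdisj (fun i => measurable_pi_apply i)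
    let A : Set (↥(S a) → ℝ) := {f | ∃ s : S a, δ ≤ f s}
    let B : Set (↥(X.biUnion S) → ℝ) :=
      {f | ∀ x (hx : x ∈ X), ∃ s, ∃ hs : s ∈ S x,
        δ ≤ f ⟨s, Finset.mem_biUnion.2 ⟨x, hx, hs⟩⟩}
    have hA : MeasurableSet A := by
      have : A = ⋃ s : S a, {f | δ ≤ f s} := by ext f; simp [A]
      rw [this]
      exact MeasurableSet.iUnion (fun s => measurableSet_le measurable_const (measurable_pi_apply s))
    have hB : MeasurableSet B := by
      have : B = ⋂ x : X, ⋃ s : S x, {f | δ ≤ f ⟨s, Finset.mem_biUnion.2 ⟨x, x.2, s.2⟩⟩} := by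
        ext f
        simp only [B, Set.mem_iInter, Set.mem_iUnion]
        constructor
        · intro h x
          obtain ⟨s, hs, h'⟩ := h x.1 x.2
          exact ⟨⟨s, hs⟩, h'⟩
        · intro h x hx
          obtain ⟨s, h'⟩ := h ⟨x, hx⟩
          exact ⟨s.1, s.2, h'⟩
      rw [this]
      refine MeasurableSet.iInter (fun x => MeasurableSet.iUnion (fun s => ?_))
      exact measurableSet_le measurable_const (measurable_pi_apply _)
    have hmul := hI.measure_inter_preimage_eq_mul A B hA hB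
    have e1 : {ω : G → ℝ | ∀ x ∈ insert a X, ∃ s ∈ S x, δ ≤ ω s} =
        (fun (ω : G → ℝ) (i : S a) => ω i) ⁻¹' A ∩
        (fun (ω : G → ℝ) (i : (X.biUnion S : Finset G)) => ω i) ⁻¹' B := by
      ext ω
      constructor
      · intro h
        refine ⟨?_, ?_⟩
        · obtain ⟨s, hs, h'⟩ := h a (Finset.mem_insert_self _ _)
          exact ⟨⟨s, hs⟩, h'⟩
        · intro x hx
          obtain ⟨s, hs, h'⟩ := h x (Finset.mem_insert_of_mem hx)
          exact ⟨s, hs, h'⟩
      · rintro ⟨⟨s, h'⟩, h2⟩ x hx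
        rcases Finset.mem_insert.1 hx with rfl | hx
        · exact ⟨s.1, s.2, h'⟩
        · obtain ⟨s, hs, h'⟩ := h2 x hx
          exact ⟨s, hs, h'⟩
    have e2 : (fun (ω : G → ℝ) (i : S a) => ω i) ⁻¹' A = {ω | ∃ s ∈ S a, δ ≤ ω s} := by
      ext ω
      constructor
      · rintro ⟨s, h'⟩; exact ⟨s.1, s.2, h'⟩
      · rintro ⟨s, hs, h'⟩; exact ⟨⟨s, hs⟩, h'⟩
    have e3 : (fun (ω : G → ℝ) (i : (X.biUnion S : Finset G)) => ω i) ⁻¹' B =
        {ω | ∀ x ∈ X, ∃ s ∈ S x, δ ≤ ω s} := by
      ext ω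
      constructor
      · intro h x hx
        obtain ⟨s, hs, h'⟩ := h x hx
        exact ⟨s, hs, h'⟩
      · intro h x hx
        obtain ⟨s, hs, h'⟩ := h x hx
        exact ⟨s, hs, h'⟩
    rw [e1, hmul, e2, e3, Finset.card_insert_of_notMem ha, pow_succ']
    apply mul_le_mul'
    · exact bern_nbox (S a) h0 h1 e (he a (Finset.mem_insert_self _ _))
    · exact ih (fun x hx y hy => hd x (Finset.mem_insert_of_mem hx) y (Finset.mem_insert_of_mem hy))
        (fun x hx => he x (Finset.mem_insert_of_mem hx))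

end Pool.Agent.H33.TG
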