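import Mathlib

set_option autoImplicit false

/-!
An infinite group in which every two elements generate a finite subgroup has finite subgroups
of unbounded order.
-/

namespace Pool.Agent.H33.TG

universe u

/-- every two elements generate a finite subgroup -/
def TwoFin (G : Type u) [Group G] : Prop :=
  ∀ x y : G, (Subgroup.closure {x, y} : Set G).Finite

lemma TwoFin.subgroup {G : Type u} [Group G] (h : TwoFin G) (C : Subgroup G) : TwoFin C := by
  intro x y
  have h0 := h x y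
  have h1 : (Subgroup.closure {x, y}).map C.subtype = Subgroup.closure {(x:G), (y:G)} := by
    rw [MonoidHom.map_closure]; simp [Set.image_pair]
  apply Set.Finite.of_finite_image (f := C.subtype) _ (Set.injOn_of_injective (Subtype.coe_injective))
  rw [← Subgroup.coe_map, h1]
  exact h0

lemma TwoFin.of_surjective {G H : Type u} [Group G] [Group H] (h : TwoFin G) (f : G →* H)
    (hf : Function.Surjective f) : TwoFin H := by
  intro x y
  obtain ⟨x, rfl⟩ := hf x
  obtain ⟨y, rfl⟩ := hf y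
  have h1 : (Subgroup.closure {x, y}).map f = Subgroup.closure {f x, f y} := by
    rw [MonoidHom.map_closure]; simp [Set.image_pair]
  rw [← h1, Subgroup.coe_map]
  exact (h x y).image _

/-- `A` is malnormal in `K` -/
def Mal {G : Type u} [Group G] (A K : Subgroup G) : Prop :=
  A ≤ K ∧ ∀ g ∈ K, g ∉ A → ∀ a ∈ A, g * a * g⁻¹ ∈ A → a = 1

lemma Mal.map {G H : Type u} [Group G] [Group H] (f : G ≃* H) {A K : Subgroup G}
    (h : Mal A K) : Mal (A.map f.toMonoidHom) (K.map f.toMonoidHom) := by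
  refine ⟨Subgroup.map_mono h.1, ?_⟩
  rintro _ ⟨g, hg, rfl⟩ hgA _ ⟨a, ha, rfl⟩ ⟨b, hb, hab⟩
  have h1 : g ∉ A := fun h' => hgA ⟨g, h', rfl⟩
  have h2 : g * a * g⁻¹ ∈ A := by
    have : b = g * a * g⁻¹ := by
      apply f.injective
      simpa using hab
    rw [← this]; exact hb
  have := h.2 g hg h1 a ha h2
  simp [this]

section counting

variable {K : Type u} [Group K] [Finite K] (A : Subgroup K)

/-- malnormal in the whole group -/
def MalT (A : Subgroup K) : Prop := ∀ g, g ∉ A → ∀ a ∈ A, g * a * g⁻¹ ∈ A → a = 1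

/-- conjugates of nontrivial elements -/
noncomputable def cj (p : (K ⧸ A) × {a : A // a ≠ 1}) : {k : K // k ≠ 1} :=
  ⟨p.1.out * (p.2.1 : K) * (p.1.out)⁻¹, by
    intro h
    have h1 : ((p.2.1 : A) : K) = 1 := by
      have := congrArg (fun z => (p.1.out)⁻¹ * z * p.1.out) h
      simpa [mul_assoc] using this
    exact p.2.2 (by ext; simpa using h1)⟩

lemma cj_injective (hA : MalT A) : Function.Injective (cj A) := by
  rintro ⟨q, a⟩ ⟨q', a'⟩ h
  have h0 : q.out * (a.1 : K) * (q.out)⁻¹ = q'.out * (a'.1 : K) * (q'.out)⁻¹ :=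
    congrArg Subtype.val h
  have h1 : ((q'.out)⁻¹ * q.out) * (a.1 : K) * ((q'.out)⁻¹ * q.out)⁻¹ = (a'.1 : K) := by
    have := congrArg (fun z => (q'.out)⁻¹ * z * q'.out) h0
    simp only [mul_assoc, inv_mul_cancel, mul_one, inv_mul_cancel_left] at this
    simp only [mul_inv_rev, inv_inv, mul_assoc]
    exact this
  have hq : q = q' := by
    by_contra hne
    have hn : (q'.out)⁻¹ * q.out ∉ A := by
      intro hm
      apply hne
      rw [← QuotientGroup.out_eq' q, ← QuotientGroup.out_eq' q']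
      exact (QuotientGroup.eq.2 hm).symm
    have := hA _ hn a.1 a.1.2 (by rw [h1]; exact a'.1.2)
    exact a.2 (by ext; simpa using this)
  subst hq
  have : (a.1 : K) = a'.1 := by simpa using h1
  have : a = a' := by ext; exact this
  rw [this]

lemma cj_range (k : {k : K // k ≠ 1}) :
    k ∈ Set.range (cj A) ↔ ∃ g : K, g * k.1 * g⁻¹ ∈ A := by
  constructor
  · rintro ⟨⟨q, a⟩, rfl⟩
    refine ⟨(q.out)⁻¹, ?_⟩
    simp only [cj]
    have : (q.out)⁻¹ * (q.out * (a.1 : K) * (q.out)⁻¹) * ((q.out)⁻¹)⁻¹ = a.1 := by group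
    rw [this]; exact a.1.2
  · rintro ⟨g, hg⟩
    -- k = g⁻¹ a g
    let q : K ⧸ A := QuotientGroup.mk g⁻¹
    have hq : (q.out)⁻¹ * g⁻¹ ∈ A := by
      apply QuotientGroup.eq.1
      exact QuotientGroup.out_eq' q
    have hb : (q.out)⁻¹ * k.1 * q.out ∈ A := by
      have : (q.out)⁻¹ * k.1 * q.out =
          ((q.out)⁻¹ * g⁻¹) * (g * k.1 * g⁻¹) * ((q.out)⁻¹ * g⁻¹)⁻¹ := by group
      rw [this]
      exact A.mul_mem (A.mul_mem hq hg) (A.inv_mem hq)
    refine ⟨(q, ⟨⟨_, hb⟩, ?_⟩), ?_⟩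
    · intro h
      have h' : (q.out)⁻¹ * k.1 * q.out = 1 := congrArg Subtype.val h
      apply k.2
      have := congrArg (fun z => q.out * z * (q.out)⁻¹) h'
      simpa [mul_assoc] using this
    · apply Subtype.ext
      simp only [cj]
      group

lemma card_ne_one (K : Type u) [Group K] [Finite K] :
    Nat.card {k : K // k ≠ 1} = Nat.card K - 1 := by
  classical
  haveI := Fintype.ofFinite K
  rw [Nat.card_eq_fintype_card, Nat.card_eq_fintype_card]
  rw [Fintype.card_subtype_compl, Fintype.card_subtype_eq]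

lemma card_dom : Nat.card ((K ⧸ A) × {a : A // a ≠ 1}) = Nat.card K - A.index := by
  rw [Nat.card_prod, card_ne_one, Nat.mul_sub, mul_one]
  have := A.card_mul_index
  rw [mul_comm] at this
  have h2 : Nat.card (K ⧸ A) = A.index := rfl
  rw [h2, this]

lemma exists_not_conj (hA : MalT A) (hne : A ≠ ⊤) :
    ∃ k : K, k ≠ 1 ∧ ∀ g : K, g * k * g⁻¹ ∉ A := by
  by_contra hcon
  push Not at hcon
  have hs : Function.Surjective (cj A) := by
    intro k
    exact (cj_range A k).2 (hcon k.1 k.2)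
  have h1 := Nat.card_congr (Equiv.ofBijective _ ⟨cj_injective A hA, hs⟩)
  rw [card_dom, card_ne_one] at h1
  have h2 : A.index ≠ 1 := fun h => hne (Subgroup.index_eq_one.1 h)
  have h3 : A.index ≠ 0 := Subgroup.index_ne_zero_of_finite
  have h4 : A.index ≤ Nat.card K := by
    have := A.card_mul_index
    have h5 : 0 < Nat.card A := Nat.card_pos
    nlinarith
  omega

lemma two_mal (C : Subgroup K) (hA : MalT A) (hC : MalT C) (hA1 : A ≠ ⊥) (hC1 : C ≠ ⊥) :
    ∃ a ∈ A, a ≠ 1 ∧ ∃ g : K, g⁻¹ * a * g ∈ C := by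
  by_contra hcon
  push Not at hcon
  have hdis : Disjoint (Set.range (cj A)) (Set.range (cj C)) := by
    rw [Set.disjoint_left]
    intro k hk1 hk2
    obtain ⟨g, hg⟩ := (cj_range A k).1 hk1
    obtain ⟨g', hg'⟩ := (cj_range C k).1 hk2
    refine hcon _ hg ?_ (g * g'⁻¹) ?_
    · intro h
      apply k.2
      have := congrArg (fun z => g⁻¹ * z * g) h
      simpa [mul_assoc] using this
    · have : (g * g'⁻¹)⁻¹ * (g * k.1 * g⁻¹) * (g * g'⁻¹) = g' * k.1 * g'⁻¹ := by group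
      rw [this]; exact hg'
  have h1 : (Set.range (cj A)).ncard = Nat.card K - A.index := by
    rw [← card_dom, ← Set.image_univ, Set.ncard_image_of_injective _ (cj_injective A hA),
      Set.ncard_univ]
  have h2 : (Set.range (cj C)).ncard = Nat.card K - C.index := by
    rw [← card_dom, ← Set.image_univ, Set.ncard_image_of_injective _ (cj_injective C hC),
      Set.ncard_univ]
  have h3 : (Set.range (cj A) ∪ Set.range (cj C)).ncard ≤ Nat.card K - 1 := by
    rw [← card_ne_one, ← Set.ncard_univ]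
    exact Set.ncard_le_ncard (Set.subset_univ _) (Set.toFinite _)
  rw [Set.ncard_union_eq hdis (Set.toFinite _) (Set.toFinite _), h1, h2] at h3
  have key : ∀ D : Subgroup K, D ≠ ⊥ → 2 * D.index ≤ Nat.card K := by
    intro D hD
    have h5 := D.card_mul_index
    have h6 : 2 ≤ Nat.card D := by
      have h7 : Nat.card D ≠ 1 := fun h => hD (Subgroup.eq_bot_of_card_eq D h)
      have h8 : 0 < Nat.card D := Nat.card_pos
      omega
    calc 2 * D.index ≤ Nat.card D * D.index := Nat.mul_le_mul_right _ h6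
      _ = _ := h5
  have h7 := key A hA1
  have h8 := key C hC1
  have h9 : 0 < Nat.card K := Nat.card_pos
  omega

end counting

section main

variable {G : Type u} [Group G]

/-- two generated subgroup -/
abbrev K2 (x y : G) : Subgroup G := Subgroup.closure {x, y}

lemma mem_K2_left (x y : G) : x ∈ K2 x y := Subgroup.subset_closure (by simp)
lemma mem_K2_right (x y : G) : y ∈ K2 x y := Subgroup.subset_closure (by simp)

lemma K2_le {x y : G} {H : Subgroup G} (hx : x ∈ H) (hy : y ∈ H) : K2 x y ≤ H := by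
  rw [K2, Subgroup.closure_le]
  rintro z (rfl | hz)
  · exact hx
  · rw [Set.mem_singleton_iff] at hz; subst hz; exact hy

lemma K2_comm (x y : G) : K2 x y = K2 y x := by
  simp only [K2, Set.pair_comm]

lemma finite_conj_set (hc : ∀ c : G, c ≠ 1 → (Subgroup.centralizer {c} : Set G).Finite)
    {a : G} (ha : a ≠ 1) (a' : G) : {g : G | g * a * g⁻¹ = a'}.Finite := by
  by_cases h : ∃ g0, g0 * a * g0⁻¹ = a'
  · obtain ⟨g0, h0⟩ := h
    refine ((hc a ha).image (fun c => g0 * c)).subset ?_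
    intro g hg
    refine ⟨g0⁻¹ * g, ?_, by simp⟩
    rw [SetLike.mem_coe, Subgroup.mem_centralizer_singleton_iff]
    have hg' : g * a * g⁻¹ = g0 * a * g0⁻¹ := by rw [h0]; exact hg
    have : g0⁻¹ * (g * a * g⁻¹) * g = g0⁻¹ * (g0 * a * g0⁻¹) * g := by rw [hg']
    have e1 : g0⁻¹ * (g * a * g⁻¹) * g = g0⁻¹ * g * a := by group
    have e2 : g0⁻¹ * (g0 * a * g0⁻¹) * g = a * (g0⁻¹ * g) := by group
    rw [← e1, this, e2]
  · convert Set.finite_empty
    ext g
    simp only [Set.mem_setOf_eq, Set.mem_empty_iff_false, iff_false]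
    exact fun h' => h ⟨g, h'⟩

/-- elements obstructing malnormality -/
def obs (A : Subgroup G) : Set G := {g | g ∉ A ∧ ∃ a ∈ A, a ≠ 1 ∧ g * a * g⁻¹ ∈ A}

lemma obs_finite (hc : ∀ c : G, c ≠ 1 → (Subgroup.centralizer {c} : Set G).Finite)
    {A : Subgroup G} (hA : (A : Set G).Finite) : (obs A).Finite := by
  have h : (⋃ a ∈ {a : G | a ∈ A ∧ a ≠ 1}, ⋃ a' ∈ (A : Set G),
      {g : G | g * a * g⁻¹ = a'}).Finite := by
    apply Set.Finite.biUnion (hA.subset (fun x hx => hx.1))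
    intro a ha
    apply Set.Finite.biUnion hA
    intro a' _
    exact finite_conj_set hc ha.2 a'
  refine h.subset ?_
  rintro g ⟨_, a, ha, ha1, hga⟩
  simp only [Set.mem_iUnion, Set.mem_setOf_eq]
  exact ⟨a, ⟨ha, ha1⟩, _, hga, rfl⟩

lemma exists_core (B : ℕ) (h2 : TwoFin G)
    (hB : ∀ F : Subgroup G, (F : Set G).Finite → Nat.card F ≤ B)
    (u : G) (Y : Set G) (hY : Y.Infinite) :
    ∃ A : Subgroup G, (A : Set G).Finite ∧ u ∈ A ∧ {y ∈ Y | A ≤ K2 u y}.Infinite ∧
     ∀ k, k ∉ A → {y ∈ Y | A ≤ K2 u y ∧ k ∈ K2 u y}.Finite := by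
  let P : Subgroup G → Prop :=
    fun A => (A : Set G).Finite ∧ u ∈ A ∧ {y ∈ Y | A ≤ K2 u y}.Infinite
  have hP0 : P (K2 u u) := by
    refine ⟨h2 u u, mem_K2_left _ _, ?_⟩
    convert hY using 1
    ext y
    simp only [Set.mem_setOf_eq, and_iff_left_iff_imp]
    intro _
    exact K2_le (mem_K2_left _ _) (mem_K2_left _ _)
  let S : Set ℕ := {n | ∃ A, P A ∧ Nat.card A = n}
  have hS : S.Nonempty := ⟨_, _, hP0, rfl⟩
  have hSb : BddAbove S := ⟨B, by rintro n ⟨A, hA, rfl⟩; exact hB A hA.1⟩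
  obtain ⟨A, hA, hcard⟩ := Nat.sSup_mem hS hSb
  have hmax : ∀ A', P A' → Nat.card A' ≤ Nat.card A := by
    intro A' hA'
    rw [hcard]
    exact le_csSup hSb ⟨A', hA', rfl⟩
  refine ⟨A, hA.1, hA.2.1, hA.2.2, ?_⟩
  intro k hk
  by_contra hinf
  have hinf' : {y ∈ Y | A ≤ K2 u y ∧ k ∈ K2 u y}.Infinite := hinf
  have hsub : ∀ y, A ≤ K2 u y ∧ k ∈ K2 u y → A ⊔ Subgroup.closure {k} ≤ K2 u y := by
    rintro y ⟨h1, h3⟩
    refine sup_le h1 ?_
    rw [Subgroup.closure_le]
    simpa using h3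
  obtain ⟨y0, hy0⟩ := hinf'.nonempty
  have hfin : ((A ⊔ Subgroup.closure {k} : Subgroup G) : Set G).Finite :=
    (h2 u y0).subset (hsub y0 hy0.2)
  have hP' : P (A ⊔ Subgroup.closure {k}) := by
    refine ⟨hfin, (le_sup_left : A ≤ _) hA.2.1, hinf'.mono ?_⟩
    rintro y ⟨hy, hy'⟩
    exact ⟨hy, hsub y hy'⟩
  have h4 := hmax _ hP'
  haveI : Finite (A ⊔ Subgroup.closure {k} : Subgroup G) := hfin.to_subtype
  have h5 : A = A ⊔ Subgroup.closure {k} := Subgroup.eq_of_le_of_card_ge le_sup_left h4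
  apply hk
  rw [h5]
  exact (le_sup_right : Subgroup.closure {k} ≤ _) (Subgroup.subset_closure rfl)

lemma core_finite {u : G} {Y : Set G} {A : Subgroup G}
    (hA : ∀ k, k ∉ A → {y ∈ Y | A ≤ K2 u y ∧ k ∈ K2 u y}.Finite)
    {S : Set G} (hS : S.Finite) (hSA : ∀ k ∈ S, k ∉ A) :
    {y ∈ Y | A ≤ K2 u y ∧ ∃ k ∈ S, k ∈ K2 u y}.Finite := by
  have h : (⋃ k ∈ S, {y ∈ Y | A ≤ K2 u y ∧ k ∈ K2 u y}).Finite :=
    Set.Finite.biUnion hS (fun k hk => hA k (hSA k hk))
  refine h.subset ?_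
  rintro y ⟨hy, hAy, k, hk, hky⟩
  simp only [Set.mem_iUnion]
  exact ⟨k, hk, hy, hAy, hky⟩

lemma mal_of_obs {u y : G} {A : Subgroup G} (h1 : A ≤ K2 u y)
    (h2 : ¬ ∃ k ∈ obs A, k ∈ K2 u y) : Mal A (K2 u y) := by
  refine ⟨h1, ?_⟩
  intro g hg hgA a ha hga
  by_contra ha1
  exact h2 ⟨g, ⟨hgA, a, ha, ha1, hga⟩, hg⟩

/-- Fact 1 -/
lemma exists_good (B : ℕ) (h2 : TwoFin G)
    (hB : ∀ F : Subgroup G, (F : Set G).Finite → Nat.card F ≤ B)
    (hc : ∀ c : G, c ≠ 1 → (Subgroup.centralizer {c} : Set G).Finite)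
    (u : G) (Y : Set G) (hY : Y.Infinite) :
    ∃ y ∈ Y, ∃ A : Subgroup G, u ∈ A ∧ Mal A (K2 u y) ∧ A ≠ K2 u y := by
  obtain ⟨A, hAf, huA, hinf, hcore⟩ := exists_core B h2 hB u Y hY
  have f1 := core_finite hcore (obs_finite hc hAf) (fun k hk => hk.1)
  have f3 := (hinf.diff (f1.union hAf)).nonempty
  obtain ⟨y, ⟨hyY, hAy⟩, hn⟩ := f3
  refine ⟨y, hyY, A, huA, mal_of_obs hAy ?_, ?_⟩
  · intro h
    exact hn (Or.inl ⟨hyY, hAy, h⟩)
  · intro h
    apply hn
    right
    show y ∈ A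
    rw [h]; exact mem_K2_right _ _

lemma Mal.malT {A K : Subgroup G} (h : Mal A K) : MalT (A.subgroupOf K) := by
  intro g hg a ha hga
  rw [Subgroup.mem_subgroupOf] at hg ha hga
  have := h.2 g.1 g.2 hg a.1 ha hga
  ext; simpa using this

lemma Mal.exists_not_conj {A K : Subgroup G} (hK : (K : Set G).Finite) (h : Mal A K)
    (hne : A ≠ K) : ∃ k ∈ K, k ≠ 1 ∧ ∀ g ∈ K, g * k * g⁻¹ ∉ A := by
  haveI : Finite K := hK.to_subtype
  have hne' : A.subgroupOf K ≠ ⊤ := by
    intro h'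
    rw [Subgroup.subgroupOf_eq_top] at h'
    exact hne (le_antisymm h.1 h')
  obtain ⟨k, hk1, hk⟩ := TG.exists_not_conj _ h.malT hne'
  refine ⟨k.1, k.2, fun h' => hk1 (by ext; simpa using h'), ?_⟩
  intro g hg hgA
  exact hk ⟨g, hg⟩ (by rw [Subgroup.mem_subgroupOf]; exact hgA)

lemma Mal.two {A C K : Subgroup G} (hK : (K : Set G).Finite) (hA : Mal A K) (hC : Mal C K)
    (hA1 : A ≠ ⊥) (hC1 : C ≠ ⊥) : ∃ a ∈ A, a ≠ 1 ∧ ∃ g ∈ K, g⁻¹ * a * g ∈ C := by
  haveI : Finite K := hK.to_subtype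
  have key : ∀ D : Subgroup G, D ≤ K → D ≠ ⊥ → D.subgroupOf K ≠ ⊥ := by
    intro D hD hD1 h'
    rw [Subgroup.subgroupOf_eq_bot] at h'
    apply hD1
    rw [eq_bot_iff]
    intro d hd
    exact h'.le_bot ⟨hd, hD hd⟩
  obtain ⟨a, ha, ha1, g, hg⟩ := TG.two_mal _ (C.subgroupOf K) hA.malT hC.malT
    (key A hA.1 hA1) (key C hC.1 hC1)
  rw [Subgroup.mem_subgroupOf] at ha hg
  exact ⟨a.1, ha, fun h' => ha1 (by ext; simpa using h'), g.1, g.2, hg⟩

lemma Mal.exists_prime {A K : Subgroup G} (hK : (K : Set G).Finite) (h : Mal A K)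
    (hne : A ≠ K) : ∃ k ∈ K, (orderOf k).Prime ∧ ∀ g ∈ K, g * k * g⁻¹ ∉ A := by
  obtain ⟨k, hkK, hk1, hk⟩ := h.exists_not_conj hK hne
  have hfo : IsOfFinOrder k := by
    haveI : Finite K := hK.to_subtype
    have := isOfFinOrder_of_finite (⟨k, hkK⟩ : K)
    exact (Submonoid.isOfFinOrder_coe (x := (⟨k, hkK⟩ : K.toSubmonoid))).2 this
  have hm : orderOf k ≠ 1 := fun h' => hk1 (orderOf_eq_one_iff.1 h')
  have hm0 : orderOf k ≠ 0 := hfo.orderOf_pos.ne'
  set r := (orderOf k).minFac with hr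
  have hrp : r.Prime := Nat.minFac_prime hm
  have hrd : r ∣ orderOf k := Nat.minFac_dvd _
  have ho : orderOf (k ^ (orderOf k / r)) = r := orderOf_pow_orderOf_div hm0 hrd
  refine ⟨k ^ (orderOf k / r), K.pow_mem hkK _, by rw [ho]; exact hrp, ?_⟩
  intro g hg hgA
  set s := orderOf k / r
  have hk1' : k ^ s ≠ 1 := by
    intro h'
    rw [h', orderOf_one] at ho
    exact hrp.one_lt.ne ho
  have hgk : g * k * g⁻¹ ∉ A := hk g hg
  have := h.2 (g * k * g⁻¹) (K.mul_mem (K.mul_mem hg hkK) (K.inv_mem hg)) hgk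
    (g * k ^ s * g⁻¹) hgA (by
      have : g * k * g⁻¹ * (g * k ^ s * g⁻¹) * (g * k * g⁻¹)⁻¹ = g * k ^ s * g⁻¹ := by
        have e : k * k ^ s * k⁻¹ = k ^ s := by
          rw [(Commute.self_pow k s).eq]; group
        calc g * k * g⁻¹ * (g * k ^ s * g⁻¹) * (g * k * g⁻¹)⁻¹
            = g * (k * k ^ s * k⁻¹) * g⁻¹ := by group
          _ = _ := by rw [e]
      rw [this]; exact hgA)
  apply hk1'
  have h3 := congrArg (fun z => g⁻¹ * z * g) this
  simpa [mul_assoc] using h3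

lemma common_center (h2 : TwoFin G) {r : ℕ} (hr : r.Prime) (u0 u : G)
    (h0 : orderOf u0 = r) (hu : orderOf u = r) :
    ∃ z : G, z ≠ 1 ∧ z ∈ Subgroup.centralizer {u0} ∧
      ∃ v, v ∈ Subgroup.centralizer {z} ∧ IsConj u v := by
  haveI : Fact r.Prime := ⟨hr⟩
  haveI hKf : Finite (K2 u0 u) := (h2 u0 u).to_subtype
  let a : K2 u0 u := ⟨u0, mem_K2_left _ _⟩
  let b : K2 u0 u := ⟨u, mem_K2_right _ _⟩
  have hao : orderOf a = r := by rw [← h0]; exact (Subgroup.orderOf_mk _ _)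
  have hbo : orderOf b = r := by rw [← hu]; exact (Subgroup.orderOf_mk _ _)
  have hpa : IsPGroup r (Subgroup.zpowers a) := by
    apply IsPGroup.of_card (n := 1)
    rw [Nat.card_zpowers, hao, pow_one]
  have hpb : IsPGroup r (Subgroup.zpowers b) := by
    apply IsPGroup.of_card (n := 1)
    rw [Nat.card_zpowers, hbo, pow_one]
  obtain ⟨Q, hQ⟩ := hpa.exists_le_sylow
  obtain ⟨Q', hQ'⟩ := hpb.exists_le_sylow
  obtain ⟨g, hg⟩ := MulAction.exists_smul_eq (K2 u0 u) Q' Q
  have haQ : a ∈ Q := hQ (Subgroup.mem_zpowers a)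
  have hbQ : b ∈ Q' := hQ' (Subgroup.mem_zpowers b)
  have hvQ : g * b * g⁻¹ ∈ Q := by
    rw [← hg]
    rw [Sylow.smul_def]
    have : g * b * g⁻¹ = MulAut.conj g b := rfl
    rw [this]
    exact Subgroup.smul_mem_pointwise_smul _ _ _ hbQ
  have ha1 : a ≠ 1 := by
    intro h'
    rw [h', orderOf_one] at hao
    exact hr.one_lt.ne hao
  haveI : Nontrivial (Q : Subgroup (K2 u0 u)) := by
    refine ⟨⟨⟨a, haQ⟩, 1, ?_⟩⟩
    intro h'
    exact ha1 (congrArg Subtype.val h')
  haveI : Nontrivial (Subgroup.center (Q : Subgroup (K2 u0 u))) :=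
    IsPGroup.center_nontrivial Q.isPGroup'
  obtain ⟨z, hz⟩ := exists_ne (1 : Subgroup.center (Q : Subgroup (K2 u0 u)))
  have hzc : ∀ q : K2 u0 u, q ∈ Q → q * (z.1.1 : K2 u0 u) = (z.1.1 : K2 u0 u) * q := by
    intro q hq
    have := (Subgroup.mem_center_iff.1 z.2) ⟨q, hq⟩
    exact congrArg Subtype.val this
  refine ⟨((z.1.1 : K2 u0 u) : G), ?_, ?_, ((g * b * g⁻¹ : K2 u0 u) : G), ?_, ?_⟩
  · intro h'
    apply hz
    apply Subtype.ext; apply Subtype.ext; apply Subtype.ext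
    exact h'
  · rw [Subgroup.mem_centralizer_singleton_iff]
    exact (congrArg Subtype.val (hzc a haQ)).symm
  · rw [Subgroup.mem_centralizer_singleton_iff]
    exact (congrArg Subtype.val (hzc _ hvQ))
  · rw [isConj_iff]
    exact ⟨g, rfl⟩

lemma classes_finite (h2 : TwoFin G)
    (hc : ∀ c : G, c ≠ 1 → (Subgroup.centralizer {c} : Set G).Finite)
    (r : ℕ) (hr : r.Prime) :
    {c : ConjClasses G | ∃ u, orderOf u = r ∧ ConjClasses.mk u = c}.Finite := by
  by_cases h : ∃ u0 : G, orderOf u0 = r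
  · obtain ⟨u0, h0⟩ := h
    have hu1 : u0 ≠ 1 := by
      intro h'
      rw [h', orderOf_one] at h0
      exact hr.one_lt.ne h0
    have hf : (⋃ z ∈ {z : G | z ∈ Subgroup.centralizer {u0} ∧ z ≠ 1},
        ⋃ v ∈ (Subgroup.centralizer {z} : Set G), {ConjClasses.mk v}).Finite := by
      apply Set.Finite.biUnion ((hc u0 hu1).subset (fun z hz => hz.1))
      intro z hz
      apply Set.Finite.biUnion (hc z hz.2)
      intro v _
      exact Set.finite_singleton _
    refine hf.subset ?_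
    rintro _ ⟨u, hu, rfl⟩
    obtain ⟨z, hz1, hz, v, hv, huv⟩ := common_center h2 hr u0 u h0 hu
    simp only [Set.mem_iUnion]
    exact ⟨z, ⟨hz, hz1⟩, v, hv, ConjClasses.mk_eq_mk_iff_isConj.2 huv⟩
  · convert Set.finite_empty
    ext c
    simp only [Set.mem_ofPred_eq, Set.mem_empty_iff_false, iff_false]
    rintro ⟨u, hu, _⟩
    exact h ⟨u, hu⟩

lemma prime_classes_finite (B : ℕ) (h2 : TwoFin G)
    (hB : ∀ F : Subgroup G, (F : Set G).Finite → Nat.card F ≤ B)
    (hc : ∀ c : G, c ≠ 1 → (Subgroup.centralizer {c} : Set G).Finite) :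
    {c : ConjClasses G | ∃ u : G, (orderOf u).Prime ∧ ConjClasses.mk u = c}.Finite := by
  have hf : (⋃ r ∈ {r : ℕ | r ≤ B ∧ r.Prime},
      {c : ConjClasses G | ∃ u, orderOf u = r ∧ ConjClasses.mk u = c}).Finite := by
    apply Set.Finite.biUnion ((Set.finite_Iic B).subset (fun r hr => hr.1))
    intro r hr
    exact classes_finite h2 hc r hr.2
  refine hf.subset ?_
  rintro _ ⟨u, hu, rfl⟩
  simp only [Set.mem_iUnion]
  refine ⟨orderOf u, ⟨?_, hu⟩, u, rfl, rfl⟩
  rw [← Nat.card_zpowers]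
  apply hB
  exact (h2 u u).subset (by
    have : Subgroup.zpowers u ≤ K2 u u := by
      rw [Subgroup.zpowers_le]; exact mem_K2_left _ _
    exact this)

/-- pigeonhole -/
lemma pigeon {α β : Type*} {s : Set α} (hs : s.Infinite) (f : α → β) {t : Set β}
    (ht : t.Finite) (hf : ∀ a ∈ s, f a ∈ t) : ∃ b ∈ t, {a ∈ s | f a = b}.Infinite := by
  by_contra h
  push Not at h
  apply hs
  have : (⋃ b ∈ t, {a ∈ s | f a = b}).Finite :=
    Set.Finite.biUnion ht (fun b hb => h b hb)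
  refine this.subset ?_
  intro a ha
  simp only [Set.mem_iUnion]
  exact ⟨f a, hf a ha, ha, rfl⟩

lemma main_step (B : ℕ) (h2 : TwoFin G)
    (hB : ∀ F : Subgroup G, (F : Set G).Finite → Nat.card F ≤ B)
    (hc : ∀ c : G, c ≠ 1 → (Subgroup.centralizer {c} : Set G).Finite)
    (hG : Infinite G) : False := by
  classical
  -- minimal order
  let Pm : ℕ → Prop := fun m => ∃ u : G, u ≠ 1 ∧ {y : G | Nat.card (K2 u y) = m}.Infinite
  have hex : ∃ m, Pm m := by
    obtain ⟨u, hu⟩ := exists_ne (1 : G)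
    obtain ⟨m, _, hm⟩ := pigeon (s := (Set.univ : Set G)) Set.infinite_univ
      (fun y => Nat.card (K2 u y)) (Set.finite_Iic B) (fun y _ => hB _ (h2 u y))
    refine ⟨m, u, hu, ?_⟩
    simpa using hm
  set m := Nat.find hex with hmdef
  obtain ⟨x, hx1, hxinf⟩ := Nat.find_spec hex
  rw [← hmdef] at hxinf
  have hsmall : ∀ u : G, u ≠ 1 → {y : G | Nat.card (K2 u y) < m}.Finite := by
    intro u hu
    have : (⋃ k ∈ Set.Iio m, {y : G | Nat.card (K2 u y) = k}).Finite := by
      apply Set.Finite.biUnion (Set.finite_Iio m)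
      intro k hk
      by_contra hinf
      exact Nat.find_min hex hk ⟨u, hu, hinf⟩
    refine this.subset ?_
    intro y hy
    simp only [Set.mem_iUnion]
    exact ⟨_, hy, rfl⟩
  obtain ⟨A, hAf, hxA, hYA, hcore⟩ := exists_core B h2 hB x _ hxinf
  -- good elements
  let bad1 : Set G := {y ∈ {y : G | Nat.card (K2 x y) = m} | A ≤ K2 x y ∧ ∃ k ∈ obs A, k ∈ K2 x y}
  have hbad1 : bad1.Finite := core_finite hcore (obs_finite hc hAf) (fun k hk => hk.1)
  let S3 : Set G := {w | w ∉ A ∧ ∃ a ∈ A, a ≠ 1 ∧ Nat.card (K2 a w) < m}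
  have hS3 : S3.Finite := by
    have : (⋃ a ∈ {a : G | a ∈ A ∧ a ≠ 1}, {w : G | Nat.card (K2 a w) < m}).Finite :=
      Set.Finite.biUnion (hAf.subset (fun a ha => ha.1)) (fun a ha => hsmall a ha.2)
    refine this.subset ?_
    rintro w ⟨_, a, ha, ha1, hw⟩
    simp only [Set.mem_iUnion]
    exact ⟨a, ⟨ha, ha1⟩, hw⟩
  let bad2 : Set G := {y ∈ {y : G | Nat.card (K2 x y) = m} | A ≤ K2 x y ∧ ∃ k ∈ S3, k ∈ K2 x y}
  have hbad2 : bad2.Finite := core_finite hcore hS3 (fun k hk => hk.1)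
  have hgood := hYA.sdiff ((hbad1.union hbad2).union hAf)
  set Yg := {y ∈ {y : G | Nat.card (K2 x y) = m} | A ≤ K2 x y} \ (bad1 ∪ bad2 ∪ (A : Set G))
    with hYg
  have hcard : ∀ y ∈ Yg, Nat.card (K2 x y) = m := fun y hy => hy.1.1
  have hAle : ∀ y ∈ Yg, A ≤ K2 x y := fun y hy => hy.1.2
  have hmal : ∀ y ∈ Yg, Mal A (K2 x y) := by
    intro y hy
    apply mal_of_obs (hAle y hy)
    intro h
    exact hy.2 (Or.inl (Or.inl ⟨hy.1.1, hy.1.2, h⟩))
  have hne : ∀ y ∈ Yg, A ≠ K2 x y := by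
    intro y hy h
    apply hy.2
    right
    show y ∈ A
    rw [h]; exact mem_K2_right _ _
  have hgen : ∀ y ∈ Yg, ∀ a ∈ A, a ≠ 1 → ∀ w ∈ K2 x y, w ∉ A → K2 a w = K2 x y := by
    intro y hy a ha ha1 w hw hwA
    have hle : K2 a w ≤ K2 x y := K2_le (hAle y hy ha) hw
    haveI : Finite (K2 x y) := (h2 x y).to_subtype
    apply Subgroup.eq_of_le_of_card_ge hle
    rw [hcard y hy]
    by_contra hlt
    push Not at hlt
    exact hy.2 (Or.inl (Or.inr ⟨hy.1.1, hy.1.2, w, ⟨hwA, a, ha, ha1, hlt⟩, hw⟩))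
  -- the elements n_y
  have hn0 : ∀ y : G, ∃ n : G, y ∈ Yg → n ∈ K2 x y ∧ (orderOf n).Prime ∧
      ∀ g ∈ K2 x y, g * n * g⁻¹ ∉ A := by
    intro y
    by_cases hy : y ∈ Yg
    · obtain ⟨k, hk1, hk2, hk3⟩ := (hmal y hy).exists_prime (h2 x y) (hne y hy)
      exact ⟨k, fun _ => ⟨hk1, hk2, hk3⟩⟩
    · exact ⟨1, fun h => absurd h hy⟩
  choose n hn using hn0
  have hnA : ∀ y ∈ Yg, n y ∉ A := by
    intro y hy h
    have := (hn y hy).2.2 1 (K2 x y).one_mem
    simp only [one_mul, inv_one, mul_one] at this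
    exact this h
  obtain ⟨c0, _, hY1⟩ := pigeon hgood (fun y => ConjClasses.mk (n y))
    (prime_classes_finite B h2 hB hc) (fun y hy => ⟨n y, (hn y hy).2.1, rfl⟩)
  set Y1 := {y ∈ Yg | ConjClasses.mk (n y) = c0} with hY1def
  obtain ⟨y0, hy0⟩ := hY1.nonempty
  set n0 := n y0 with hn0def
  have hconj : ∀ y : G, ∃ g : G, y ∈ Y1 → g * n y * g⁻¹ = n0 := by
    intro y
    by_cases hy : y ∈ Y1
    · have : IsConj (n y) n0 := by
        rw [← ConjClasses.mk_eq_mk_iff_isConj, hy.2, hn0def, hy0.2]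
      obtain ⟨g, hg⟩ := isConj_iff.1 this
      exact ⟨g, fun _ => hg⟩
    · exact ⟨1, fun h => absurd h hy⟩
  choose g hg using hconj
  let X' : Set G := (fun y => g y * x * (g y)⁻¹) '' Y1
  have hX' : X'.Infinite := by
    intro hfin
    obtain ⟨x', _, hY2⟩ := pigeon hY1 (fun y => g y * x * (g y)⁻¹) hfin
      (fun y hy => ⟨y, hy, rfl⟩)
    obtain ⟨y1, hy1⟩ := hY2.nonempty
    obtain ⟨h, _, hY3⟩ := pigeon hY2 (fun y => g y) (finite_conj_set hc hx1 x')
      (fun y hy => hy.2)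
    obtain ⟨y2, hy2⟩ := hY3.nonempty
    have hk : ∀ y ∈ {a | a ∈ {a | a ∈ Y1 ∧ g a * x * (g a)⁻¹ = x'} ∧ g a = h},
        n y = h⁻¹ * n0 * h := by
      intro y hy
      have := hg y hy.1.1
      rw [hy.2] at this
      rw [← this]; group
    have hkA : h⁻¹ * n0 * h ∉ A := by
      rw [← hk y2 hy2]
      exact hnA y2 hy2.1.1.1
    apply hY3
    refine (hcore _ hkA).subset ?_
    intro y hy
    refine ⟨hy.1.1.1.1.1, hy.1.1.1.1.2, ?_⟩
    rw [← hk y hy]
    exact (hn y hy.1.1.1).1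
  obtain ⟨_, ⟨y, hy, rfl⟩, C, hnC, hCmal, hCne⟩ := exists_good B h2 hB hc n0 X' hX'
  have hyg : y ∈ Yg := hy.1
  -- transport back
  let φ : G ≃* G := MulAut.conj (g y)⁻¹
  have hφn : φ n0 = n y := by
    have := hg y hy
    show (g y)⁻¹ * n0 * (g y)⁻¹⁻¹ = n y
    rw [← this]; group
  have hφx : φ (g y * x * (g y)⁻¹) = x := by
    show (g y)⁻¹ * (g y * x * (g y)⁻¹) * (g y)⁻¹⁻¹ = x
    group
  have hK : (K2 n0 (g y * x * (g y)⁻¹)).map φ.toMonoidHom = K2 x y := by
    rw [← hgen y hyg x hxA hx1 (n y) (hn y hyg).1 (hnA y hyg)]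
    rw [K2, MonoidHom.map_closure, Set.image_pair]
    have e1 : φ.toMonoidHom n0 = n y := hφn
    have e2 : φ.toMonoidHom (g y * x * (g y)⁻¹) = x := hφx
    rw [e1, e2, Set.pair_comm]
  have hCmal' : Mal (C.map φ.toMonoidHom) (K2 x y) := by
    rw [← hK]; exact hCmal.map φ
  have hnC' : n y ∈ C.map φ.toMonoidHom := ⟨n0, hnC, hφn⟩
  have hCne' : C.map φ.toMonoidHom ≠ K2 x y := by
    rw [← hK]
    intro h
    exact hCne (Subgroup.map_injective φ.injective h)
  set C' := C.map φ.toMonoidHom with hC'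
  have hA1 : A ≠ ⊥ := by
    intro h
    rw [h, Subgroup.mem_bot] at hxA
    exact hx1 hxA
  have hn1 : n y ≠ 1 := by
    intro h
    have := (hn y hyg).2.1
    rw [h, orderOf_one] at this
    exact Nat.not_prime_one this
  have hC1 : C' ≠ ⊥ := by
    intro h
    rw [h, Subgroup.mem_bot] at hnC'
    exact hn1 hnC'
  obtain ⟨a, haA, ha1, k, hkK, hak⟩ := (hmal y hyg).two (h2 x y) hCmal' hA1 hC1
  -- k⁻¹ a k ∈ C', n y ∈ C'; w = k n k⁻¹ ∉ A
  have hw : k * n y * k⁻¹ ∉ A := (hn y hyg).2.2 k hkK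
  have hwK : k * n y * k⁻¹ ∈ K2 x y :=
    (K2 x y).mul_mem ((K2 x y).mul_mem hkK (hn y hyg).1) ((K2 x y).inv_mem hkK)
  have hgen' := hgen y hyg a haA ha1 _ hwK hw
  apply hCne'
  apply le_antisymm hCmal'.1
  intro z hz
  -- k z k⁻¹ ∈ K = K2 a w ≤ k C' k⁻¹
  have hz' : k * z * k⁻¹ ∈ K2 a (k * n y * k⁻¹) := by
    rw [hgen']
    exact (K2 x y).mul_mem ((K2 x y).mul_mem hkK hz) ((K2 x y).inv_mem hkK)
  have hle : K2 a (k * n y * k⁻¹) ≤ C'.map (MulAut.conj k).toMonoidHom := by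
    apply K2_le
    · refine ⟨k⁻¹ * a * k, hak, ?_⟩
      show k * (k⁻¹ * a * k) * k⁻¹ = a
      group
    · exact ⟨n y, hnC', rfl⟩
  obtain ⟨z', hz'C, hz'e⟩ := hle hz'
  have hz'e' : k * z' * k⁻¹ = k * z * k⁻¹ := hz'e
  have : z' = z := by
    have := congrArg (fun t => k⁻¹ * t * k) hz'e'
    simpa [mul_assoc] using this
  rw [← this]; exact hz'C

end main

/-- Every group whose two-generated subgroups are finite, and whose finite subgroups have
bounded order, is finite. -/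
theorem gt (B : ℕ) : ∀ (G : Type u) [Group G], TwoFin G →
    (∀ F : Subgroup G, (F : Set G).Finite → Nat.card F ≤ B) → Finite G := by
  induction B using Nat.strong_induction_on with
  | _ B ih =>
    intro G _ h2 hB
    by_contra hnf
    have hG : Infinite G := not_finite_iff_infinite.1 hnf
    refine main_step B h2 hB ?_ hG
    intro c hc1
    by_contra hinf
    let C : Subgroup G := Subgroup.centralizer {c}
    have hcC : c ∈ C := by
      show c ∈ Subgroup.centralizer {c}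
      rw [Subgroup.mem_centralizer_singleton_iff]
    let c' : C := ⟨c, hcC⟩
    let Z : Subgroup C := Subgroup.zpowers c'
    have hcent : ∀ g : C, c' * g = g * c' := by
      intro g
      apply Subtype.ext
      have := g.2
      exact ((Subgroup.mem_centralizer_singleton_iff).1 this).symm
    have hZn : Z.Normal := by
      constructor
      intro n hn g
      obtain ⟨k, rfl⟩ := Subgroup.mem_zpowers_iff.1 hn
      have : g * c' ^ k * g⁻¹ = c' ^ k := by
        have h : Commute g (c' ^ k) := (Commute.zpow_right (show Commute g c' from (hcent g).symm) k)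
        rw [h.eq]; group
      rw [this]
      exact Subgroup.zpow_mem_zpowers _ _
    have hZf : (Z : Set C).Finite := by
      have h := h2.subgroup C c' c'
      refine h.subset ?_
      have : Z ≤ K2 c' c' := by
        rw [Subgroup.zpowers_le]; exact mem_K2_left _ _
      exact this
    have hZfin : Finite Z := hZf.to_subtype
    have hZ2 : 2 ≤ Nat.card Z := by
      have h7 : Nat.card Z ≠ 1 := by
        intro h
        have h8 := Subgroup.eq_bot_of_card_eq Z h
        have h9 : c' ∈ Z := Subgroup.mem_zpowers c'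
        rw [h8, Subgroup.mem_bot] at h9
        exact hc1 (congrArg Subtype.val h9)
      have h8 : 0 < Nat.card Z := Nat.card_pos
      omega
    have h2Q : TwoFin (C ⧸ Z) :=
      (h2.subgroup C).of_surjective (QuotientGroup.mk' Z) (QuotientGroup.mk'_surjective Z)
    have key : ∀ F : Subgroup (C ⧸ Z), (F : Set (C ⧸ Z)).Finite →
        (F.comap (QuotientGroup.mk' Z) : Set C).Finite ∧
        Nat.card (F.comap (QuotientGroup.mk' Z)) = Nat.card F * Nat.card Z := by
      intro F hF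
      have himg : (F.comap (QuotientGroup.mk' Z) : Set C) =
          (fun p : (C ⧸ Z) × C => p.1.out * p.2) '' ((F : Set (C ⧸ Z)) ×ˢ (Z : Set C)) := by
        ext z
        constructor
        · intro hz
          refine ⟨(QuotientGroup.mk z, ((QuotientGroup.mk z : C ⧸ Z).out)⁻¹ * z), ⟨hz, ?_⟩, by simp⟩
          apply QuotientGroup.eq.1
          exact QuotientGroup.out_eq' _
        · rintro ⟨⟨q, w⟩, ⟨hq, hw⟩, rfl⟩
          show QuotientGroup.mk' Z (q.out * w) ∈ F
          have : QuotientGroup.mk' Z (q.out * w) = q := by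
            rw [map_mul]
            have e1 : QuotientGroup.mk' Z q.out = q := QuotientGroup.out_eq' q
            have e2 : QuotientGroup.mk' Z w = 1 := (QuotientGroup.eq_one_iff w).2 hw
            rw [e1, e2, mul_one]
          rw [this]; exact hq
      have hinj : Set.InjOn (fun p : (C ⧸ Z) × C => p.1.out * p.2)
          ((F : Set (C ⧸ Z)) ×ˢ (Z : Set C)) := by
        rintro ⟨q, w⟩ ⟨hq, hw⟩ ⟨q', w'⟩ ⟨hq', hw'⟩ h
        have e0 : q.out * w = q'.out * w' := h
        have e3 : ∀ (q : C ⧸ Z) (w : C), w ∈ Z → QuotientGroup.mk' Z (q.out * w) = q := by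
          intro q w hw
          rw [map_mul]
          have e1 : QuotientGroup.mk' Z q.out = q := QuotientGroup.out_eq' q
          have e2 : QuotientGroup.mk' Z w = 1 := (QuotientGroup.eq_one_iff w).2 hw
          rw [e1, e2, mul_one]
        have e4 : q = q' := by rw [← e3 q w hw, ← e3 q' w' hw', e0]
        subst e4
        have : w = w' := mul_left_cancel e0
        rw [this]
      constructor
      · rw [himg]
        exact (hF.prod hZf).image _
      · have h1 : Nat.card (F.comap (QuotientGroup.mk' Z)) =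
            (F.comap (QuotientGroup.mk' Z) : Set C).ncard := rfl
        rw [h1, himg, Set.ncard_image_of_injOn hinj, Set.ncard_prod]
        rfl
    have hB1 : 1 ≤ B := by
      have := hB ⊥ (by simp)
      simpa using this
    have hBQ : ∀ F : Subgroup (C ⧸ Z), (F : Set (C ⧸ Z)).Finite → Nat.card F ≤ B / 2 := by
      intro F hF
      obtain ⟨k1, k2⟩ := key F hF
      have h3 := hB ((F.comap (QuotientGroup.mk' Z)).map C.subtype)
        (by rw [Subgroup.coe_map]; exact k1.image _)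
      have h4 : Nat.card ((F.comap (QuotientGroup.mk' Z)).map C.subtype) =
          Nat.card (F.comap (QuotientGroup.mk' Z)) :=
        (Nat.card_congr ((F.comap (QuotientGroup.mk' Z)).equivMapOfInjective C.subtype
          (Subtype.coe_injective)).toEquiv).symm
      rw [h4, k2] at h3
      rw [Nat.le_div_iff_mul_le (by norm_num)]
      calc Nat.card F * 2 ≤ Nat.card F * Nat.card Z := Nat.mul_le_mul_left _ hZ2
        _ ≤ B := h3
    have hQ := ih (B / 2) (by omega) (C ⧸ Z) h2Q hBQ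
    apply hinf
    obtain ⟨k1, _⟩ := key ⊤ (Set.toFinite _)
    have : (C : Set G) = C.subtype '' ((⊤ : Subgroup (C ⧸ Z)).comap (QuotientGroup.mk' Z) : Set C) := by
      ext z
      constructor
      · intro hz
        exact ⟨⟨z, hz⟩, trivial, rfl⟩
      · rintro ⟨w, _, rfl⟩
        exact w.2
    show (C : Set G).Finite
    rw [this]
    exact k1.image _

end Pool.Agent.H33.TG
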