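import Pool.Agent.H33.TG.Bern

set_option autoImplicit false

/-!
Graphings on the label space of a countable group, with constant group elements.
-/

open MeasureTheory ProbabilityTheory

namespace Pool.Agent.H33.TG

variable {G : Type} [Group G]

/-- the labels seen from position `p` -/
def sh (p : G) (ω : G → ℝ) : G → ℝ := fun x => ω (p * x)

lemma sh_sh (p q : G) (ω : G → ℝ) : sh q (sh p ω) = sh (p * q) ω := by
  funext x; simp [sh, mul_assoc]

lemma sh_one (ω : G → ℝ) : sh 1 ω = ω := by funext x; simp [sh]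

lemma sh_apply_one (p : G) (ω : G → ℝ) : sh p ω 1 = ω p := by simp [sh]

lemma sh_mp (p : G) : MeasurePreserving (sh p) (bern G) (bern G) :=
  bern_reindex (fun x => p * x) (mul_right_injective p)

/-- positions connected by the graphing `B` over the labels `ω` -/
def Conn (B : G → Set (G → ℝ)) (ω : G → ℝ) : G → G → Prop :=
  Relation.EqvGen (fun p p' => ∃ q, p' = p * q ∧ sh p ω ∈ B q)

lemma Conn.refl (B : G → Set (G → ℝ)) (ω : G → ℝ) (p : G) : Conn B ω p p := Relation.EqvGen.refl _

lemma Conn.symm {B : G → Set (G → ℝ)} {ω : G → ℝ} {p q : G} (h : Conn B ω p q) : Conn B ω q p :=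
  Relation.EqvGen.symm _ _ h

lemma Conn.trans {B : G → Set (G → ℝ)} {ω : G → ℝ} {p q r : G} (h : Conn B ω p q)
    (h' : Conn B ω q r) : Conn B ω p r :=
  Relation.EqvGen.trans _ _ _ h h'

lemma Conn.step {B : G → Set (G → ℝ)} {ω : G → ℝ} {p q : G} (h : sh p ω ∈ B q) :
    Conn B ω p (p * q) := Relation.EqvGen.rel _ _ ⟨q, rfl, h⟩

lemma Conn.mono {B B' : G → Set (G → ℝ)} (hB : ∀ g, B g ⊆ B' g) {ω : G → ℝ} {p q : G}
    (h : Conn B ω p q) : Conn B' ω p q := by
  refine Relation.EqvGen.mono ?_ _ _ h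
  rintro p p' ⟨q, hq, hm⟩
  exact ⟨q, hq, hB q hm⟩

lemma Conn.of_sh {B : G → Set (G → ℝ)} {ω : G → ℝ} {p q r : G} (h : Conn B (sh p ω) q r) :
    Conn B ω (p * q) (p * r) := by
  induction h with
  | rel x y h =>
    obtain ⟨t, ht, hm⟩ := h
    subst ht
    rw [← mul_assoc]
    apply Conn.step
    rwa [← sh_sh]
  | refl x => exact Conn.refl _ _ _
  | symm x y _ ih => exact ih.symm
  | trans x y z _ _ ih1 ih2 => exact ih1.trans ih2

variable [Countable G]

lemma ae_all_sh {P : (G → ℝ) → Prop} (h : ∀ᵐ ω ∂bern G, P ω) :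
    ∀ᵐ ω ∂bern G, ∀ p : G, P (sh p ω) := by
  rw [ae_all_iff]
  intro p
  exact (sh_mp p).quasiMeasurePreserving.ae h

/-- group elements almost surely connected to the identity -/
def Gen (B : G → Set (G → ℝ)) : Subgroup G where
  carrier := {g | ∀ᵐ ω ∂bern G, Conn B ω 1 g}
  one_mem' := by
    show ∀ᵐ ω ∂bern G, Conn B ω 1 1
    exact Filter.Eventually.of_forall (fun ω => Conn.refl _ _ _)
  mul_mem' := by
    intro g h hg hh
    filter_upwards [hg, ae_all_sh hh] with ω h1 h2
    have h3 := (h2 g).of_sh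
    rw [mul_one] at h3
    exact h1.trans h3
  inv_mem' := by
    intro g hg
    filter_upwards [ae_all_sh hg] with ω h1
    have h3 := (h1 g⁻¹).of_sh
    rw [mul_one, inv_mul_cancel] at h3
    exact h3.symm

lemma mem_Gen {B : G → Set (G → ℝ)} {g : G} : g ∈ Gen B ↔ ∀ᵐ ω ∂bern G, Conn B ω 1 g := Iff.rfl

lemma Gen_all (B : G → Set (G → ℝ)) :
    ∀ᵐ ω ∂bern G, ∀ p : G, ∀ g : G, g ∈ Gen B → Conn B ω p (p * g) := by
  have h : ∀ᵐ ω ∂bern G, ∀ g : G, g ∈ Gen B → Conn B ω 1 g := by
    rw [ae_all_iff]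
    intro g
    by_cases hg : g ∈ Gen B
    · filter_upwards [mem_Gen.1 hg] with ω h _
      exact h
    · exact Filter.Eventually.of_forall (fun ω h => absurd h hg)
  filter_upwards [ae_all_sh h] with ω h1 p g hg
  have h3 := (h1 p g hg).of_sh
  rwa [mul_one] at h3

/-- cost of a graphing -/
noncomputable def cst (B : G → Set (G → ℝ)) : ENNReal := ∑' g, bern G (B g)

/-- with extra cost `c`, the elements of `T` can be added once `S` is there -/
def Adds (S T : Set G) (c : ENNReal) : Prop :=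
  ∃ B : G → Set (G → ℝ), (∀ g, MeasurableSet (B g)) ∧ cst B ≤ c ∧
    ∀ B' : G → Set (G → ℝ), (∀ g, B g ⊆ B' g) → S ⊆ Gen B' → T ⊆ Gen B'

lemma Adds.mono {S S' T T' : Set G} {c c' : ENNReal} (h : Adds S T c) (hS : S ⊆ S')
    (hT : T' ⊆ T) (hc : c ≤ c') : Adds S' T' c' := by
  obtain ⟨B, hm, hB, h⟩ := h
  exact ⟨B, hm, hB.trans hc, fun B' hB' hS' => hT.trans (h B' hB' (hS.trans hS'))⟩

lemma Adds.closure {S T : Set G} {c : ENNReal} (h : Adds S T c) :
    Adds S (Subgroup.closure (S ∪ T) : Set G) c := by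
  obtain ⟨B, hm, hB, h⟩ := h
  refine ⟨B, hm, hB, fun B' hB' hS' => ?_⟩
  show Subgroup.closure (S ∪ T) ≤ Gen B'
  rw [Subgroup.closure_le]
  exact Set.union_subset hS' (h B' hB' hS')

lemma Adds.trans {S T U : Set G} {c c' : ENNReal} (h : Adds S T c) (h' : Adds T U c') :
    Adds S U (c + c') := by
  obtain ⟨B, hm, hB, h⟩ := h
  obtain ⟨B1, hm1, hB1, h1⟩ := h'
  refine ⟨fun g => B g ∪ B1 g, fun g => (hm g).union (hm1 g), ?_, ?_⟩
  · calc cst (fun g => B g ∪ B1 g) ≤ ∑' g, (bern G (B g) + bern G (B1 g)) :=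
        ENNReal.tsum_le_tsum (fun g => measure_union_le _ _)
      _ = cst B + cst B1 := ENNReal.tsum_add
      _ ≤ c + c' := add_le_add hB hB1
  · intro B' hB' hS
    exact h1 B' (fun g => Set.subset_union_right.trans (hB' g))
      (h B' (fun g => Set.subset_union_left.trans (hB' g)) hS)

lemma cst_iUnion_le (B : ℕ → G → Set (G → ℝ)) :
    cst (fun g => ⋃ n, B n g) ≤ ∑' n, cst (B n) := by
  calc cst (fun g => ⋃ n, B n g) ≤ ∑' g, ∑' n, bern G (B n g) :=
        ENNReal.tsum_le_tsum (fun g => measure_iUnion_le _)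
      _ = ∑' n, ∑' g, bern G (B n g) := ENNReal.tsum_comm
      _ = _ := rfl

/-- countably many additions over the same base -/
lemma Adds.iUnion {S : Set G} {T : ℕ → Set G} {c : ℕ → ENNReal} (h : ∀ n, Adds S (T n) (c n)) :
    Adds S (⋃ n, T n) (∑' n, c n) := by
  choose B hm hB h using h
  refine ⟨fun g => ⋃ n, B n g, fun g => MeasurableSet.iUnion (fun n => hm n g), ?_, ?_⟩
  · exact (cst_iUnion_le B).trans (ENNReal.tsum_le_tsum hB)
  · intro B' hB' hS
    exact Set.iUnion_subset (fun n => h n B' (fun g => (Set.subset_iUnion _ n).trans (hB' g)) hS)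

/-- a chain of additions -/
lemma Adds.chain {T : ℕ → Set G} {c : ℕ → ENNReal} (h : ∀ n, Adds (T n) (T (n + 1)) (c n)) :
    Adds (T 0) (⋃ n, T n) (∑' n, c n) := by
  choose B hm hB h using h
  refine ⟨fun g => ⋃ n, B n g, fun g => MeasurableSet.iUnion (fun n => hm n g), ?_, ?_⟩
  · exact (cst_iUnion_le B).trans (ENNReal.tsum_le_tsum hB)
  · intro B' hB' hS
    have : ∀ n, T n ⊆ Gen B' := by
      intro n
      induction n with
      | zero => exact hS
      | succ n ih => exact h n B' (fun g => (Set.subset_iUnion _ n).trans (hB' g)) ih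
    exact Set.iUnion_subset this

/-- the action on labels -/
@[reducible] def act : MulAction G (G → ℝ) where
  smul g ω := fun x => ω (g⁻¹ * x)
  one_smul ω := by funext x; show ω (1⁻¹ * x) = ω x; simp
  mul_smul g h ω := by funext x; show ω ((g * h)⁻¹ * x) = ω (h⁻¹ * (g⁻¹ * x)); simp [mul_assoc]

/-- the cost hypothesis of the frozen statement -/
def CostGe (G : Type) [Group G] (c : ENNReal) : Prop :=
  ∀ (X : Type) [MeasurableSpace X] [StandardBorelSpace X] (μ : Measure X)
    [IsProbabilityMeasure μ] [MulAction G X],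
    (∀ g : G, MeasurePreserving (fun x : X => g • x) μ μ) →
    (∀ᵐ x ∂μ, ∀ g : G, g • x = x → g = 1) →
    ∀ (A : ℕ → Set X) (f : ℕ → X → G),
      (∀ i, MeasurableSet (A i)) →
      (∀ i, ∀ g : G, MeasurableSet {x : X | f i x = g}) →
      (∀ᵐ x ∂μ, ∀ g : G, Relation.ReflTransGen
        (fun y z : X => ∃ i, (y ∈ A i ∧ z = f i y • y) ∨ (z ∈ A i ∧ y = f i z • z))
        x (g • x)) →
      c ≤ ∑' i, μ (A i)

theorem cost_le {c c' : ENNReal} (hc : CostGe G c) (h : Adds (∅ : Set G) Set.univ c') :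
    c ≤ c' := by
  classical
  obtain ⟨B, hm, hB, h⟩ := h
  have hG := h B (fun g => le_rfl) (Set.empty_subset _)
  obtain ⟨enc, henc⟩ := exists_injective_nat G
  letI : MulAction G (G → ℝ) := act
  have hsm : ∀ (g : G) (ω : G → ℝ), g • ω = sh g⁻¹ ω := fun g ω => rfl
  let A : ℕ → Set (G → ℝ) := fun n => {ω | ∃ q, enc q = n ∧ ω ∈ B q}
  let f : ℕ → (G → ℝ) → G := fun n _ => if h : ∃ q, enc q = n then (h.choose)⁻¹ else 1
  have hf : ∀ (q : G) (ω : G → ℝ), f (enc q) ω = q⁻¹ := by
    intro q ω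
    have hex : ∃ q', enc q' = enc q := ⟨q, rfl⟩
    simp only [f]
    rw [dif_pos hex, henc hex.choose_spec]
  have hA : ∀ q, A (enc q) = B q := by
    intro q
    ext ω
    constructor
    · rintro ⟨q', hq', hω⟩
      rw [henc hq'] at hω; exact hω
    · intro hω; exact ⟨q, rfl, hω⟩
  have hA0 : ∀ n, n ∉ Set.range enc → A n = ∅ := by
    intro n hn
    ext ω
    simp only [Set.mem_empty_iff_false, iff_false]
    rintro ⟨q, hq, _⟩
    exact hn ⟨q, hq⟩
  have hcost := hc (G → ℝ) (bern G) (fun g => sh_mp g⁻¹) ?_ A f ?_ ?_ ?_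
  · have : ∑' i, bern G (A i) = cst B := by
      rw [cst]
      have e1 : ∀ q, bern G (B q) = bern G (A (enc q)) := fun q => by rw [hA]
      simp_rw [e1]
      rw [henc.tsum_eq (f := fun i => bern G (A i))]
      intro n hn
      by_contra hcon
      apply hn
      show bern G (A n) = 0
      rw [hA0 n hcon]; exact measure_empty
    rw [this] at hcost
    exact hcost.trans hB
  · filter_upwards [bern_inj] with ω hω g hg
    have := congrFun hg 1
    have h1 : ω (g⁻¹ * 1) = ω 1 := this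
    have h2 := hω h1
    simpa using h2
  · intro n
    by_cases hn : n ∈ Set.range enc
    · obtain ⟨q, rfl⟩ := hn
      rw [hA]; exact hm q
    · rw [hA0 n hn]; exact MeasurableSet.empty
  · intro n g
    by_cases hx : (if h : ∃ q, enc q = n then (h.choose)⁻¹ else 1) = g
    · have : {x : G → ℝ | f n x = g} = Set.univ := by
        ext x; simp only [Set.mem_univ, iff_true]; exact hx
      rw [this]; exact MeasurableSet.univ
    · have : {x : G → ℝ | f n x = g} = ∅ := by
        ext x; simp only [Set.mem_empty_iff_false, iff_false]; exact hx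
      rw [this]; exact MeasurableSet.empty
  · filter_upwards [Gen_all B] with ω hω g
    have h1 := hω 1 g⁻¹ (hG trivial)
    rw [one_mul] at h1
    set R := (fun y z : G → ℝ => ∃ i, (y ∈ A i ∧ z = f i y • y) ∨ (z ∈ A i ∧ y = f i z • z))
      with hR
    have hsymm : ∀ y z, R y z → R z y := by
      rintro y z ⟨i, h | h⟩
      · exact ⟨i, Or.inr h⟩
      · exact ⟨i, Or.inl h⟩
    have key : ∀ p p', Conn B ω p p' → Relation.ReflTransGen R (sh p ω) (sh p' ω) := by
      intro p p' hp
      induction hp with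
      | rel x y h =>
        obtain ⟨t, ht, hm⟩ := h
        subst ht
        apply Relation.ReflTransGen.single
        refine ⟨enc t, Or.inl ⟨?_, ?_⟩⟩
        · rw [hA]; exact hm
        · rw [hf t (sh x ω), hsm, inv_inv, sh_sh]
      | refl x => exact Relation.ReflTransGen.refl
      | symm x y _ ih =>
        have hs : Std.Symm R := ⟨hsymm⟩
        exact (Relation.ReflTransGen.stdSymm (r := R)).symm _ _ ih
      | trans x y z _ _ ih1 ih2 => exact ih1.trans ih2
    have h2 := key _ _ h1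
    rw [sh_one, ← hsm] at h2
    exact h2

end Pool.Agent.H33.TG
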