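import Pool.Agent.H33.TG.Pieces
import Pool.Agent.H33.TG.GT

set_option autoImplicit false

/-!
Torsion groups of cost greater than one have Tarski half number three.
-/

open MeasureTheory ProbabilityTheory
open scoped NNReal

namespace Pool.Agent.H33.TG

variable {G : Type} [Group G] [Countable G]

lemma adds_univ_of_list {S : Set G} (g : ℕ → G) (hg : Function.Surjective g) {c : ℕ → ENNReal}
    (h : ∀ n, Adds S {g n} (c n)) : Adds S Set.univ (∑' n, c n) := by
  refine (Adds.iUnion h).mono le_rfl ?_ le_rfl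
  intro x _
  obtain ⟨n, rfl⟩ := hg x
  simp

/-- the case of an infinite two-generated subgroup -/
lemma case_infinite (htor : Monoid.IsTorsion G) (hno : ¬ ∃ n, 3 ≤ n ∧ Parad G 3 n) (a b : G)
    (hinf : (Subgroup.closure {a, b} : Set G).Infinite) (ε : ℝ) (hε : 0 < ε) :
    Adds (∅ : Set G) Set.univ (1 + ENNReal.ofReal ε) := by
  classical
  obtain ⟨h1, h2⟩ := dichotomy htor hno a b hinf
  obtain ⟨g, hg⟩ := exists_surjective_nat G
  obtain ⟨ε', hε', hsum⟩ := ENNReal.exists_pos_sum_of_countable
    (ε := ENNReal.ofReal (ε / 2)) (ENNReal.ofReal_pos.2 (by positivity)).ne' ℕ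
  have a1 := (adds_tile a b h1 (ε / 2) (by positivity)).closure
  rw [Set.empty_union] at a1
  have a2 : Adds (Subgroup.closure {a, b} : Set G) Set.univ (∑' n, (ε' n : ENNReal)) := by
    apply adds_univ_of_list g hg
    intro n
    have := adds_cheap (Subgroup.closure {a, b}) (g n) (h2 (g n)) (ε' n : ℝ) (by exact_mod_cast hε' n)
    rwa [ENNReal.ofReal_coe_nnreal] at this
  refine (a1.trans a2).mono le_rfl le_rfl ?_
  calc 1 + ENNReal.ofReal (ε / 2) + ∑' n, (ε' n : ENNReal)
      ≤ 1 + ENNReal.ofReal (ε / 2) + ENNReal.ofReal (ε / 2) := by gcongr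
    _ = 1 + ENNReal.ofReal ε := by
        rw [add_assoc, ← ENNReal.ofReal_add (by positivity) (by positivity)]
        congr 2; ring

/-- for a positive number there are large enough integers -/
lemma exists_inv_le (x : ℝ≥0) (hx : 0 < x) : ∃ N : ℕ, ∀ k : ℕ, N ≤ k → ((k : ENNReal)⁻¹) ≤ x := by
  obtain ⟨N, hN⟩ := ENNReal.exists_inv_nat_lt (a := (x : ENNReal)) (by exact_mod_cast hx.ne')
  refine ⟨N, fun k hk => ?_⟩
  refine le_trans ?_ hN.le
  apply ENNReal.inv_le_inv.2
  exact_mod_cast hk

/-- unbounded exponent -/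
lemma case_unbounded (h2 : TwoFin G) (hunb : ∀ M : ℕ, ∃ h : G, M ≤ orderOf h) (ε : ℝ) (hε : 0 < ε) :
    Adds (∅ : Set G) Set.univ (1 + ENNReal.ofReal ε) := by
  classical
  obtain ⟨g, hg⟩ := exists_surjective_nat G
  obtain ⟨ε', hε', hsum⟩ := ENNReal.exists_pos_sum_of_countable
    (ε := ENNReal.ofReal (ε / 2)) (ENNReal.ofReal_pos.2 (by positivity)).ne' ℕ
  choose N hN using fun n => exists_inv_le (ε' n) (hε' n)
  choose h hh using fun n => hunb (N n)
  let H : ℕ → Subgroup G := fun n => Subgroup.zpowers (h n)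
  have hHf : ∀ n, (H n : Set G).Finite := by
    intro n
    refine (h2 (h n) (h n)).subset ?_
    have : H n ≤ K2 (h n) (h n) := by
      show Subgroup.zpowers (h n) ≤ _
      rw [Subgroup.zpowers_le]; exact mem_K2_left _ _
    exact this
  have hHc : ∀ n, ((Nat.card (H n) : ENNReal)⁻¹) ≤ ε' n := by
    intro n
    apply hN
    show N n ≤ Nat.card (Subgroup.zpowers (h n))
    rw [Nat.card_zpowers]; exact hh n
  have a0 : Adds (∅ : Set G) (H 0 : Set G) 1 := adds_base (H 0) (hHf 0)
  have a1 : ∀ n, Adds (H n : Set G) (H (n + 1) : Set G) (ε' n) := by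
    intro n
    refine (adds_finite (H n) (K2 (h n) (h (n + 1))) (h2 _ _) ?_).mono le_rfl ?_ (hHc n)
    · show Subgroup.zpowers (h n) ≤ _
      rw [Subgroup.zpowers_le]; exact mem_K2_left _ _
    · have : Subgroup.zpowers (h (n + 1)) ≤ K2 (h n) (h (n + 1)) := by
        rw [Subgroup.zpowers_le]; exact mem_K2_right _ _
      exact this
  have a2 := Adds.chain (T := fun n => (H n : Set G)) a1
  have a3 : Adds (⋃ n, (H n : Set G)) Set.univ (∑' n, (ε' n : ENNReal)) := by
    apply adds_univ_of_list g hg
    intro n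
    refine (adds_finite (H n) (K2 (h n) (g n)) (h2 _ _) ?_).mono
      (Set.subset_iUnion (fun n => (H n : Set G)) n) ?_ (hHc n)
    · show Subgroup.zpowers (h n) ≤ _
      rw [Subgroup.zpowers_le]; exact mem_K2_left _ _
    · rw [Set.singleton_subset_iff]; exact mem_K2_right _ _
  refine ((a0.trans a2).trans a3).mono le_rfl le_rfl ?_
  calc 1 + ∑' n, (ε' n : ENNReal) + ∑' n, (ε' n : ENNReal)
      ≤ 1 + ENNReal.ofReal (ε / 2) + ENNReal.ofReal (ε / 2) := by gcongr
    _ = 1 + ENNReal.ofReal ε := by
        rw [add_assoc, ← ENNReal.ofReal_add (by positivity) (by positivity)]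
        congr 2; ring

/-- locally finite infinite groups -/
lemma case_lf [Infinite G] (hlf : ∀ S : Finset G, (Subgroup.closure (S : Set G) : Set G).Finite)
    (ε : ℝ) (hε : 0 < ε) : Adds (∅ : Set G) Set.univ (1 + ENNReal.ofReal ε) := by
  classical
  obtain ⟨⟨e⟩⟩ : Nonempty (Nonempty (ℕ ≃ G)) := ⟨nonempty_equiv_of_countable⟩
  obtain ⟨ε', hε', hsum⟩ := ENNReal.exists_pos_sum_of_countable
    (ε := ENNReal.ofReal ε) (ENNReal.ofReal_pos.2 hε).ne' ℕ
  choose N hN using fun n => exists_inv_le (ε' n) (hε' n)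
  let K : ℕ → ℕ := fun n => ∑ i ∈ Finset.range (n + 1), (N i + 1)
  have hK1 : ∀ n, N n ≤ K n := by
    intro n
    have := Finset.single_le_sum (f := fun i => N i + 1) (fun i _ => Nat.zero_le _)
      (Finset.self_mem_range_succ n)
    simp only [K]
    have h3 : N n + 1 ≤ ∑ i ∈ Finset.range (n + 1), (N i + 1) := this
    omega
  have hK2 : ∀ n, n < K n := by
    intro n
    simp only [K]
    have : ∑ i ∈ Finset.range (n + 1), 1 ≤ ∑ i ∈ Finset.range (n + 1), (N i + 1) :=
      Finset.sum_le_sum (fun i _ => by omega)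
    simp at this
    omega
  have hK3 : ∀ n, K n ≤ K (n + 1) := by
    intro n
    simp only [K]
    rw [Finset.sum_range_succ _ (n + 1)]
    omega
  let S : ℕ → Finset G := fun n => (Finset.range (K n)).image e
  have hS : ∀ n, S n ⊆ S (n + 1) := fun n =>
    Finset.image_subset_image (Finset.range_subset_range.2 (hK3 n))
  let H : ℕ → Subgroup G := fun n => Subgroup.closure (S n : Set G)
  have hHf : ∀ n, (H n : Set G).Finite := fun n => hlf (S n)
  have hHc : ∀ n, ((Nat.card (H n) : ENNReal)⁻¹) ≤ ε' n := by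
    intro n
    apply hN
    have h1 : (S n).card = K n := by
      rw [Finset.card_image_of_injective _ e.injective, Finset.card_range]
    have h3 : (S n).card ≤ Nat.card (H n) := by
      have h4 : Nat.card (H n) = (hHf n).toFinset.card :=
        Nat.card_eq_card_finite_toFinset (hHf n)
      rw [h4]
      apply Finset.card_le_card
      intro x hx
      rw [Set.Finite.mem_toFinset]
      exact Subgroup.subset_closure hx
    have := hK1 n
    omega
  have a0 : Adds (∅ : Set G) (H 0 : Set G) 1 := adds_base (H 0) (hHf 0)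
  have a1 : ∀ n, Adds (H n : Set G) (H (n + 1) : Set G) (ε' n) := by
    intro n
    refine (adds_finite (H n) (H (n + 1)) (hHf _) ?_).mono le_rfl le_rfl (hHc n)
    exact Subgroup.closure_mono (by exact_mod_cast hS n)
  have a2 := Adds.chain (T := fun n => (H n : Set G)) a1
  refine (a0.trans a2).mono le_rfl ?_ ?_
  · intro x _
    rw [Set.mem_iUnion]
    refine ⟨e.symm x, Subgroup.subset_closure ?_⟩
    show x ∈ (S (e.symm x) : Set G)
    simp only [S, Finset.coe_image, Set.mem_image, Finset.mem_coe, Finset.mem_range]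
    exact ⟨e.symm x, hK2 _, by simp⟩
  · gcongr

lemma exists_infinite_step (F : Subgroup G) (hF : (F : Set G).Finite) (S : Finset G)
    (hS : (Subgroup.closure ((F : Set G) ∪ S) : Set G).Infinite) :
    ∃ A : Subgroup G, F ≤ A ∧ (A : Set G).Finite ∧ ∃ g : G,
      (Subgroup.closure ((A : Set G) ∪ {g}) : Set G).Infinite := by
  classical
  induction S using Finset.induction_on with
  | empty =>
    exfalso
    apply hS
    simpa using hF
  | insert s S hs ih =>
    by_cases hfin : (Subgroup.closure ((F : Set G) ∪ S) : Set G).Finite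
    · refine ⟨Subgroup.closure ((F : Set G) ∪ S), ?_, hfin, s, ?_⟩
      · intro x hx
        exact Subgroup.subset_closure (Or.inl hx)
      · refine hS.mono ?_
        have : Subgroup.closure ((F : Set G) ∪ (insert s S : Finset G)) ≤
            Subgroup.closure ((Subgroup.closure ((F : Set G) ∪ S) : Set G) ∪ {s}) := by
          rw [Subgroup.closure_le]
          rintro x (hx | hx)
          · exact Subgroup.subset_closure (Or.inl (Subgroup.subset_closure (Or.inl hx)))
          · rw [Finset.coe_insert] at hx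
            rcases hx with rfl | hx
            · exact Subgroup.subset_closure (Or.inr rfl)
            · exact Subgroup.subset_closure (Or.inl (Subgroup.subset_closure (Or.inr hx)))
        exact this
    · exact ih hfin

/-- finite exponent, arbitrarily large finite subgroups, not locally finite -/
lemma case_nlf (e : ℕ) (he0 : 0 < e) (he : ∀ g : G, g ^ e = 1)
    (hlarge : ∀ M : ℕ, ∃ F : Subgroup G, (F : Set G).Finite ∧ M ≤ Nat.card F)
    (S : Finset G) (hS : (Subgroup.closure (S : Set G) : Set G).Infinite)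
    (ε : ℝ) (hε : 0 < ε) : Adds (∅ : Set G) Set.univ (1 + ENNReal.ofReal ε) := by
  classical
  obtain ⟨M, hM⟩ := adds_exp (G := G) e he0 he (ε / 2) (by positivity)
  obtain ⟨F, hF, hFM⟩ := hlarge M
  obtain ⟨A, hFA, hA, g, hg⟩ := exists_infinite_step F hF S (hS.mono (by
    have : Subgroup.closure (S : Set G) ≤ Subgroup.closure ((F : Set G) ∪ S) :=
      Subgroup.closure_mono Set.subset_union_right
    exact this))
  have hAM : M ≤ hA.toFinset.card := by
    rw [← Nat.card_eq_card_finite_toFinset hA]
    refine hFM.trans ?_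
    exact Nat.card_mono hA hFA
  have a0 : Adds (∅ : Set G) (A : Set G) 1 := adds_base A hA
  have a1 := (hM A hA.toFinset (fun x hx => by simpa using hx) hAM g).closure
  set L := Subgroup.closure ((A : Set G) ∪ {g}) with hL
  obtain ⟨γ, hγ⟩ := exists_surjective_nat G
  obtain ⟨ε', hε', hsum⟩ := ENNReal.exists_pos_sum_of_countable
    (ε := ENNReal.ofReal (ε / 2)) (ENNReal.ofReal_pos.2 (by positivity)).ne' ℕ
  have a2 : Adds (L : Set G) Set.univ (∑' n, (ε' n : ENNReal)) := by
    apply adds_univ_of_list γ hγ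
    intro n
    obtain ⟨Mn, hMn⟩ := adds_exp (G := G) e he0 he (ε' n : ℝ) (by exact_mod_cast hε' n)
    obtain ⟨X, hX, hXc⟩ := hg.exists_subset_card_eq Mn
    have := hMn L X (fun x hx => hX hx) hXc.ge (γ n)
    rwa [ENNReal.ofReal_coe_nnreal] at this
  refine ((a0.trans a1).trans a2).mono le_rfl le_rfl ?_
  calc 1 + ENNReal.ofReal (ε / 2) + ∑' n, (ε' n : ENNReal)
      ≤ 1 + ENNReal.ofReal (ε / 2) + ENNReal.ofReal (ε / 2) := by gcongr
    _ = 1 + ENNReal.ofReal ε := by
        rw [add_assoc, ← ENNReal.ofReal_add (by positivity) (by positivity)]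
        congr 2; ring

/-- if there is no three-piece half, the group has cost at most one -/
theorem adds_univ (htor : Monoid.IsTorsion G) (hno : ¬ ∃ n, 3 ≤ n ∧ Parad G 3 n)
    (ε : ℝ) (hε : 0 < ε) : Adds (∅ : Set G) Set.univ (1 + ENNReal.ofReal ε) := by
  classical
  by_cases h2 : TwoFin G
  · by_cases hunb : ∀ M : ℕ, ∃ h : G, M ≤ orderOf h
    · exact case_unbounded h2 hunb ε hε
    · push Not at hunb
      obtain ⟨M, hM⟩ := hunb
      have he : ∀ g : G, g ^ M.factorial = 1 := by
        intro g
        apply orderOf_dvd_iff_pow_eq_one.1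
        exact Nat.dvd_factorial (htor g).orderOf_pos (hM g).le
      by_cases hfin : Finite G
      · have := adds_base (⊤ : Subgroup G) (Set.toFinite _)
        exact this.mono le_rfl (by simp) le_self_add
      · haveI : Infinite G := not_finite_iff_infinite.1 hfin
        have hlarge : ∀ M : ℕ, ∃ F : Subgroup G, (F : Set G).Finite ∧ M ≤ Nat.card F := by
          intro B
          by_contra hcon
          push Not at hcon
          exact hfin (gt B G h2 (fun F hF => (hcon F hF).le))
        by_cases hlf : ∀ S : Finset G, (Subgroup.closure (S : Set G) : Set G).Finite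
        · exact case_lf hlf ε hε
        · push Not at hlf
          obtain ⟨S, hS⟩ := hlf
          exact case_nlf M.factorial (Nat.factorial_pos M) he hlarge S hS ε hε
  · have : ∃ a b : G, (Subgroup.closure {a, b} : Set G).Infinite := by
      by_contra hcon
      push Not at hcon
      apply h2
      intro x y
      exact hcon x y
    obtain ⟨a, b, hab⟩ := this
    exact case_infinite htor hno a b hab ε hε

theorem main (htor : Monoid.IsTorsion G) (hcost : ∃ c : ENNReal, 1 < c ∧ CostGe G c) :
    (∃ m n : ℕ, min m n = 3 ∧ Parad G m n) ∧ (∀ m n : ℕ, Parad G m n → 3 ≤ min m n) := by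
  refine ⟨?_, lower htor⟩
  by_contra hno'
  have hno : ¬ ∃ n, 3 ≤ n ∧ Parad G 3 n := by
    rintro ⟨n, hn, hP⟩
    exact hno' ⟨3, n, min_eq_left hn, hP⟩
  obtain ⟨c, hc1, hc⟩ := hcost
  have hle : c ≤ 1 := by
    apply ENNReal.le_of_forall_pos_le_add
    intro ε hε _
    have := cost_le hc (adds_univ htor hno (ε : ℝ) (by exact_mod_cast hε))
    rwa [ENNReal.ofReal_coe_nnreal] at this
  exact absurd hc1 (not_lt.2 hle)

end Pool.Agent.H33.TG
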