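import Mathlib

set_option autoImplicit false

/-!
Combinatorial part: paradoxical decompositions with a three-piece half.
-/

namespace Pool.Agent.H33.TG

/-- paradoxical decomposition with halves of `m` and `n` pieces -/
def Parad (G : Type) [Group G] (m n : ℕ) : Prop :=
  ∃ (P : Fin m → Set G) (Q : Fin n → Set G) (g : Fin m → G) (h : Fin n → G),
    (∀ i j, i ≠ j → Disjoint (P i) (P j)) ∧
    (∀ i j, i ≠ j → Disjoint (Q i) (Q j)) ∧
    (∀ i j, Disjoint (P i) (Q j)) ∧
    (⋃ i, (fun x : G => g i * x) '' P i) = Set.univ ∧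
    (⋃ j, (fun x : G => h j * x) '' Q j) = Set.univ

section lower

variable {G : Type} [Group G]

lemma cover_small (htor : Monoid.IsTorsion G) (m : ℕ) (hm : m ≤ 2) (P : Fin m → Set G)
    (g : Fin m → G) (hd : ∀ i j, i ≠ j → Disjoint (P i) (P j))
    (hc : (⋃ i, (fun x : G => g i * x) '' P i) = Set.univ) (x : G) : ∃ i, x ∈ P i := by
  have hc' : ∀ y : G, ∃ i, (g i)⁻¹ * y ∈ P i := by
    intro y
    have : y ∈ (⋃ i, (fun x : G => g i * x) '' P i) := by rw [hc]; trivial
    simp only [Set.mem_iUnion] at this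
    obtain ⟨i, z, hz, hzy⟩ := this
    refine ⟨i, ?_⟩
    have : (g i)⁻¹ * y = z := by rw [← hzy]; simp
    rw [this]; exact hz
  match m, hm, P, g, hd, hc, hc' with
  | 0, _, P, g, hd, hc, hc' => exact (hc' x).choose.elim0
  | 1, _, P, g, hd, hc, hc' =>
    obtain ⟨i, hi⟩ := hc' (g 0 * x)
    have : i = 0 := Subsingleton.elim _ _
    subst this
    exact ⟨0, by simpa using hi⟩
  | 2, _, P, g, hd, hc, hc' =>
    by_contra hcon
    push Not at hcon
    have step : ∀ y, y ∉ P 0 → (g 1)⁻¹ * g 0 * y ∈ P 1 := by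
      intro y hy
      obtain ⟨i, hi⟩ := hc' (g 0 * y)
      have hi01 : i = 0 ∨ i = 1 := by omega
      rcases hi01 with rfl | rfl
      · exact absurd (by simpa using hi) hy
      · rw [mul_assoc]; exact hi
    have hall : ∀ k : ℕ, ((g 1)⁻¹ * g 0) ^ (k + 1) * x ∈ P 1 := by
      intro k
      induction k with
      | zero => simpa using step x (hcon 0)
      | succ k ih =>
        have h1 : ((g 1)⁻¹ * g 0) ^ (k + 1) * x ∉ P 0 := by
          intro h
          exact (Set.disjoint_left.1 (hd 0 1 (by decide)) h) ih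
        have h2 := step _ h1
        rw [pow_succ' _ (k + 1), mul_assoc]
        exact h2
    have hfo := htor ((g 1)⁻¹ * g 0)
    have hpos : 0 < orderOf ((g 1)⁻¹ * g 0) := hfo.orderOf_pos
    have h3 := hall (orderOf ((g 1)⁻¹ * g 0) - 1)
    have h4 : orderOf ((g 1)⁻¹ * g 0) - 1 + 1 = orderOf ((g 1)⁻¹ * g 0) := by omega
    rw [h4, pow_orderOf_eq_one, one_mul] at h3
    exact hcon 1 h3
  | (k + 3), hm, _, _, _, _, _ => omega

theorem lower (htor : Monoid.IsTorsion G) (m n : ℕ) (h : Parad G m n) : 3 ≤ min m n := by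
  obtain ⟨P, Q, g, h, hP, hQ, hPQ, hcP, hcQ⟩ := h
  by_contra hlt
  push Not at hlt
  rcases le_total m n with hmn | hmn
  · rw [min_eq_left hmn] at hlt
    have hall := cover_small htor m (by omega) P g hP hcP
    have : (1 : G) ∈ (⋃ j, (fun x : G => h j * x) '' Q j) := by rw [hcQ]; trivial
    simp only [Set.mem_iUnion] at this
    obtain ⟨j, z, hz, _⟩ := this
    obtain ⟨i, hi⟩ := hall z
    exact Set.disjoint_left.1 (hPQ i j) hi hz
  · rw [min_eq_right hmn] at hlt
    have hall := cover_small htor n (by omega) Q h hQ hcQ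
    have : (1 : G) ∈ (⋃ i, (fun x : G => g i * x) '' P i) := by rw [hcP]; trivial
    simp only [Set.mem_iUnion] at this
    obtain ⟨i, z, hz, _⟩ := this
    obtain ⟨j, hj⟩ := hall z
    exact Set.disjoint_left.1 (hPQ i j) hz hj

end lower

section upper

variable {G : Type} [Group G] [DecidableEq G]

/-- interior -/
def intr (T E : Finset G) : Finset G := E.filter (fun x => ∀ t ∈ T, x * t ∈ E)

/-- boundary with respect to two elements -/
def bd (a b : G) (E : Finset G) : Finset G := E.filter (fun x => x * a ∉ E ∨ x * b ∉ E)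

lemma hall_inj (a b : G) (T : Finset G) (hT : (1 : G) ∈ T)
    (h : ∀ E : Finset G, (intr T E).card ≤ (bd a b E).card) :
    ∃ f : G ⊕ G → G, Function.Injective f ∧
      (∀ x, f (Sum.inl x) = x ∨ f (Sum.inl x) = x * a ∨ f (Sum.inl x) = x * b) ∧
      (∀ x, ∃ t ∈ T, f (Sum.inr x) = x * t) := by
  let t : G ⊕ G → Finset G := fun i => match i with
    | Sum.inl x => {x, x * a, x * b}
    | Sum.inr x => T.image (fun t => x * t)
  have hall : ∀ s : Finset (G ⊕ G), s.card ≤ (s.biUnion t).card := by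
    intro s
    set E := s.biUnion t with hE
    have hl : s.toLeft ⊆ E.filter (fun x => ¬ (x * a ∉ E ∨ x * b ∉ E)) := by
      intro x hx
      rw [Finset.mem_toLeft] at hx
      have hsub : t (Sum.inl x) ⊆ E := Finset.subset_biUnion_of_mem t hx
      have h1 : x ∈ E := hsub (by simp [t])
      have h2 : x * a ∈ E := hsub (by simp [t])
      have h3 : x * b ∈ E := hsub (by simp [t])
      rw [Finset.mem_filter]
      refine ⟨h1, ?_⟩
      tauto
    have hr : s.toRight ⊆ intr T E := by
      intro x hx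
      rw [Finset.mem_toRight] at hx
      have hsub : t (Sum.inr x) ⊆ E := Finset.subset_biUnion_of_mem t hx
      have h4 : ∀ u ∈ T, x * u ∈ E := by
        intro u hu
        exact hsub (by simp only [t]; exact Finset.mem_image_of_mem _ hu)
      rw [intr, Finset.mem_filter]
      exact ⟨by simpa using h4 1 hT, h4⟩
    have h1 := Finset.card_le_card hl
    have h2 := Finset.card_le_card hr
    have h3 := h E
    have h4 := Finset.card_filter_add_card_filter_not (s := E) (fun x => x * a ∉ E ∨ x * b ∉ E)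
    have h5 := s.card_toLeft_add_card_toRight
    have h6 : (bd a b E).card = (E.filter (fun x => x * a ∉ E ∨ x * b ∉ E)).card := rfl
    omega
  obtain ⟨f, hf, hft⟩ := (Finset.all_card_le_biUnion_card_iff_exists_injective t).1 hall
  refine ⟨f, hf, ?_, ?_⟩
  · intro x
    have := hft (Sum.inl x)
    simpa [t] using this
  · intro x
    have := hft (Sum.inr x)
    simp only [t, Finset.mem_image] at this
    obtain ⟨u, hu, h'⟩ := this
    exact ⟨u, hu, h'.symm⟩

lemma parad_of_inj (a b : G) (T : Finset G) (f : G ⊕ G → G) (hf : Function.Injective f)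
    (h1 : ∀ x, f (Sum.inl x) = x ∨ f (Sum.inl x) = x * a ∨ f (Sum.inl x) = x * b)
    (h2 : ∀ x, ∃ t ∈ T, f (Sum.inr x) = x * t) :
    ∃ n, 3 ≤ n ∧ Parad G 3 n := by
  have hc1 : ∀ x, ∃ i : Fin 3, f (Sum.inl x) = x * (![1, a, b] i : G) := by
    intro x
    rcases h1 x with h | h | h
    · exact ⟨0, by simpa using h⟩
    · exact ⟨1, by simpa using h⟩
    · exact ⟨2, by simpa using h⟩
  choose c hc using hc1
  let t : Fin (T.card + 3) → G := fun i =>
    if h : i.1 < T.card then (T.equivFin.symm ⟨i.1, h⟩ : G) else 1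
  have hd1 : ∀ x, ∃ j : Fin (T.card + 3), f (Sum.inr x) = x * t j := by
    intro x
    obtain ⟨u, hu, h⟩ := h2 x
    let k := T.equivFin ⟨u, hu⟩
    refine ⟨⟨k.1, by omega⟩, ?_⟩
    have : t ⟨k.1, by omega⟩ = u := by
      simp only [t]
      rw [dif_pos k.2]
      simp [k]
    rw [this, h]
  choose d hd using hd1
  refine ⟨T.card + 3, by omega, fun i => {y | ∃ x, c x = i ∧ y = (f (Sum.inl x))⁻¹},
    fun j => {y | ∃ x, d x = j ∧ y = (f (Sum.inr x))⁻¹}, ![1, a, b], t, ?_, ?_, ?_, ?_, ?_⟩
  · intro i j hij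
    rw [Set.disjoint_left]
    rintro y ⟨x, hx, rfl⟩ ⟨x', hx', hxx⟩
    have := hf (inv_injective hxx)
    have : x = x' := Sum.inl_injective this
    subst this
    exact hij (hx.symm.trans hx')
  · intro i j hij
    rw [Set.disjoint_left]
    rintro y ⟨x, hx, rfl⟩ ⟨x', hx', hxx⟩
    have := hf (inv_injective hxx)
    have : x = x' := Sum.inr_injective this
    subst this
    exact hij (hx.symm.trans hx')
  · intro i j
    rw [Set.disjoint_left]
    rintro y ⟨x, hx, rfl⟩ ⟨x', hx', hxx⟩
    have := hf (inv_injective hxx)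
    cases this
  · rw [Set.eq_univ_iff_forall]
    intro y
    simp only [Set.mem_iUnion]
    refine ⟨c y⁻¹, (f (Sum.inl y⁻¹))⁻¹, ⟨y⁻¹, rfl, rfl⟩, ?_⟩
    show (![1, a, b] (c y⁻¹) : G) * (f (Sum.inl y⁻¹))⁻¹ = y
    rw [hc]; group
  · rw [Set.eq_univ_iff_forall]
    intro y
    simp only [Set.mem_iUnion]
    refine ⟨d y⁻¹, (f (Sum.inr y⁻¹))⁻¹, ⟨y⁻¹, rfl, rfl⟩, ?_⟩
    show t (d y⁻¹) * (f (Sum.inr y⁻¹))⁻¹ = y
    rw [hd]; group

theorem criterion (a b : G) (T : Finset G) (hT : (1 : G) ∈ T)
    (h : ∀ E : Finset G, (intr T E).card ≤ (bd a b E).card) :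
    ∃ n, 3 ≤ n ∧ Parad G 3 n := by
  obtain ⟨f, hf, h1, h2⟩ := hall_inj a b T hT h
  exact parad_of_inj a b T f hf h1 h2

/-- iterated translates -/
def TT (a b : G) : ℕ → Finset G
  | 0 => {1}
  | k + 1 => TT a b k ∪ (TT a b k).image (fun t => a * t) ∪ (TT a b k).image (fun t => b * t)

lemma one_mem_TT (a b : G) (k : ℕ) : (1 : G) ∈ TT a b k := by
  induction k with
  | zero => simp [TT]
  | succ k ih => simp [TT, ih]

lemma intr_TT_succ (a b : G) (k : ℕ) (E : Finset G) :
    (intr (TT a b (k + 1)) E) ⊆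
      (intr (TT a b k) E).filter (fun x => ¬ (x * a ∉ intr (TT a b k) E ∨
        x * b ∉ intr (TT a b k) E)) := by
  intro x hx
  rw [intr, Finset.mem_filter] at hx
  obtain ⟨hxE, hx⟩ := hx
  have e1 : ∀ t ∈ TT a b k, x * t ∈ E := fun t ht => hx t (by simp [TT, ht])
  have e2 : ∀ t ∈ TT a b k, x * a * t ∈ E := fun t ht => by
    rw [mul_assoc]
    exact hx (a * t) (by simp [TT, ht])
  have e3 : ∀ t ∈ TT a b k, x * b * t ∈ E := fun t ht => by
    rw [mul_assoc]
    exact hx (b * t) (by simp [TT, ht])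
  have m1 : x ∈ intr (TT a b k) E := by
    rw [intr, Finset.mem_filter]; exact ⟨hxE, e1⟩
  have m2 : x * a ∈ intr (TT a b k) E := by
    rw [intr, Finset.mem_filter]
    exact ⟨by simpa using e2 1 (one_mem_TT a b k), e2⟩
  have m3 : x * b ∈ intr (TT a b k) E := by
    rw [intr, Finset.mem_filter]
    exact ⟨by simpa using e3 1 (one_mem_TT a b k), e3⟩
  rw [Finset.mem_filter]
  exact ⟨m1, by tauto⟩

theorem nonamenable_case (a b : G) (δ : ℝ) (hδ : 0 < δ)
    (h : ∀ E : Finset G, δ * E.card ≤ (bd a b E).card) :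
    ∃ n, 3 ≤ n ∧ Parad G 3 n := by
  have hδ1 : δ ≤ 1 := by
    have h1 := h {1}
    have h2 : (bd a b ({1} : Finset G)).card ≤ 1 := by
      have := Finset.card_filter_le ({1} : Finset G) (fun x => x * a ∉ ({1} : Finset G) ∨
        x * b ∉ ({1} : Finset G))
      simpa [bd] using this
    have h3 : ((bd a b ({1} : Finset G)).card : ℝ) ≤ 1 := by exact_mod_cast h2
    simp at h1
    linarith
  have hstep : ∀ (k : ℕ) (E : Finset G),
      ((intr (TT a b k) E).card : ℝ) ≤ (1 - δ) ^ k * E.card := by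
    intro k E
    induction k with
    | zero =>
      simp only [pow_zero, one_mul]
      exact_mod_cast Finset.card_filter_le _ _
    | succ k ih =>
      have h1 := Finset.card_le_card (intr_TT_succ a b k E)
      set I := intr (TT a b k) E
      have h4 := Finset.card_filter_add_card_filter_not (s := I)
        (fun x => x * a ∉ I ∨ x * b ∉ I)
      have h5 := h I
      have h6 : (bd a b I).card = (I.filter (fun x => x * a ∉ I ∨ x * b ∉ I)).card := rfl
      have h7 : (intr (TT a b (k + 1)) E).card + (bd a b I).card ≤ I.card := by omega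
      have h8 : ((intr (TT a b (k + 1)) E).card : ℝ) + (bd a b I).card ≤ I.card := by
        exact_mod_cast h7
      calc ((intr (TT a b (k + 1)) E).card : ℝ) ≤ I.card - δ * I.card := by linarith
        _ = (1 - δ) * I.card := by ring
        _ ≤ (1 - δ) * ((1 - δ) ^ k * E.card) :=
          mul_le_mul_of_nonneg_left ih (by linarith)
        _ = _ := by ring
  obtain ⟨N, hN⟩ := exists_pow_lt_of_lt_one hδ (show 1 - δ < 1 by linarith)
  refine criterion a b (TT a b N) (one_mem_TT a b N) ?_
  intro E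
  have h1 := hstep N E
  have h2 := h E
  have h3 : (0 : ℝ) ≤ E.card := Nat.cast_nonneg _
  have h4 : ((intr (TT a b N) E).card : ℝ) ≤ (bd a b E).card := by nlinarith
  exact_mod_cast h4

/-- number of left cosets of `H` met by `E` -/
noncomputable def kap (H : Subgroup G) (E : Finset G) : ℕ :=
  Set.ncard ((QuotientGroup.mk : G → G ⧸ H) '' (E : Set G))

lemma kap_le_card (H : Subgroup G) (E : Finset G) : kap H E ≤ E.card := by
  rw [kap, ← Set.ncard_coe_finset]
  exact Set.ncard_image_le (Finset.finite_toSet E)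

lemma kap_le_bd (htor : Monoid.IsTorsion G) (a b : G)
    (hinf : (Subgroup.closure {a, b} : Set G).Infinite) (E : Finset G) :
    kap (Subgroup.closure {a, b}) E ≤ (bd a b E).card := by
  set H := Subgroup.closure {a, b} with hH
  have ha : a ∈ H := Subgroup.subset_closure (by simp)
  have hb : b ∈ H := Subgroup.subset_closure (by simp)
  rw [kap, ← Set.ncard_coe_finset (bd a b E)]
  have hsub : (QuotientGroup.mk : G → G ⧸ H) '' (E : Set G) ⊆
      (QuotientGroup.mk : G → G ⧸ H) '' (bd a b E : Set G) := by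
    rintro _ ⟨x, hx, rfl⟩
    by_contra hcon
    -- the part of E in xH is closed
    let S : Set G := {y | y ∈ E ∧ (QuotientGroup.mk y : G ⧸ H) = QuotientGroup.mk x}
    have hSbd : ∀ y ∈ S, y ∉ bd a b E := by
      intro y hy hyb
      exact hcon ⟨y, hyb, hy.2⟩
    have hmk : ∀ y h, h ∈ H → (QuotientGroup.mk (y * h) : G ⧸ H) = QuotientGroup.mk y := by
      intro y h hh
      exact (QuotientGroup.mk_mul_of_mem y hh)
    have hSa : ∀ y ∈ S, y * a ∈ S := by
      intro y hy
      refine ⟨?_, (hmk y a ha).trans hy.2⟩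
      by_contra hya
      exact hSbd y hy (by rw [bd, Finset.mem_filter]; exact ⟨hy.1, Or.inl hya⟩)
    have hSb : ∀ y ∈ S, y * b ∈ S := by
      intro y hy
      refine ⟨?_, (hmk y b hb).trans hy.2⟩
      by_contra hyb
      exact hSbd y hy (by rw [bd, Finset.mem_filter]; exact ⟨hy.1, Or.inr hyb⟩)
    have hpow : ∀ h : G, (∀ y ∈ S, y * h ∈ S) → ∀ (k : ℕ), ∀ y ∈ S, y * h ^ k ∈ S := by
      intro h hh k
      induction k with
      | zero => intro y hy; simpa using hy
      | succ k ih => intro y hy; rw [pow_succ, ← mul_assoc]; exact hh _ (ih y hy)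
    have hcl : ∀ h ∈ H, ∀ y ∈ S, y * h ∈ S := by
      intro h hh
      induction hh using Subgroup.closure_induction with
      | mem z hz =>
        rcases hz with rfl | hz
        · exact hSa
        · rw [Set.mem_singleton_iff] at hz; subst hz; exact hSb
      | one => intro y hy; simpa using hy
      | mul u v _ _ hu hv => intro y hy; rw [← mul_assoc]; exact hv _ (hu y hy)
      | inv u _ hu =>
        intro y hy
        have hfo := htor u
        have hpos : 0 < orderOf u := hfo.orderOf_pos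
        have : u⁻¹ = u ^ (orderOf u - 1) := by
          rw [inv_eq_iff_mul_eq_one, ← pow_succ']
          have : orderOf u - 1 + 1 = orderOf u := by omega
          rw [this, pow_orderOf_eq_one]
        rw [this]
        exact hpow u hu _ y hy
    apply hinf
    have hxS : x ∈ S := ⟨hx, rfl⟩
    have : (H : Set G) ⊆ (fun y => x⁻¹ * y) '' (E : Set G) := by
      intro h hh
      exact ⟨x * h, (hcl h hh x hxS).1, by simp⟩
    exact ((Finset.finite_toSet E).image _).subset this
  calc _ ≤ Set.ncard ((QuotientGroup.mk : G → G ⧸ H) '' (bd a b E : Set G)) :=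
        Set.ncard_le_ncard hsub ((Finset.finite_toSet _).image _)
    _ ≤ _ := Set.ncard_image_le (Finset.finite_toSet _)

/-- elements `w` of `E` with `w * g` in `E` -/
def pr (g : G) (E : Finset G) : Finset G := E.filter (fun w => w * g ∈ E)

lemma kap_dense (H : Subgroup G) (B : Finset G) (hB : ∀ h ∈ B, h ∈ H) (E : Finset G) :
    B.card * kap H (intr B E) ≤ E.card := by
  classical
  set E' := intr B E with hE'
  have h1 : kap H E' = (E'.image (QuotientGroup.mk : G → G ⧸ H)).card := by
    rw [kap, ← Set.ncard_coe_finset, Finset.coe_image]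
  rw [h1]
  have h2 : (E.filter (fun y => (QuotientGroup.mk y : G ⧸ H) ∈
      E'.image (QuotientGroup.mk : G → G ⧸ H))).card ≤ E.card := Finset.card_filter_le _ _
  refine le_trans ?_ h2
  apply Finset.mul_card_image_le_card_of_maps_to (f := (QuotientGroup.mk : G → G ⧸ H))
  · intro y hy
    exact (Finset.mem_filter.1 hy).2
  · intro q hq
    have hq0 := hq
    rw [Finset.mem_image] at hq
    obtain ⟨x, hx, rfl⟩ := hq
    have hxB : ∀ h ∈ B, x * h ∈ E := (Finset.mem_filter.1 hx).2
    have : (B.image (fun h => x * h)).card = B.card :=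
      Finset.card_image_of_injective _ (mul_right_injective x)
    rw [← this]
    apply Finset.card_le_card
    intro y hy
    rw [Finset.mem_image] at hy
    obtain ⟨h, hh, rfl⟩ := hy
    have hm : (QuotientGroup.mk (x * h) : G ⧸ H) = QuotientGroup.mk x :=
      QuotientGroup.mk_mul_of_mem x (hB h hh)
    rw [Finset.mem_filter, Finset.mem_filter, hm]
    exact ⟨⟨hxB h hh, hq0⟩, rfl⟩

theorem expensive_case (htor : Monoid.IsTorsion G) (a b g : G)
    (hinf : (Subgroup.closure {a, b} : Set G).Infinite) (δ : ℝ) (hδ : 0 < δ)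
    (h : ∀ E : Finset G, δ * (pr g E).card ≤ kap (Subgroup.closure {a, b}) E) :
    ∃ n, 3 ≤ n ∧ Parad G 3 n := by
  classical
  set H := Subgroup.closure {a, b} with hH
  obtain ⟨N, hN⟩ := exists_nat_gt (1 / δ ^ 2)
  obtain ⟨B0, hB0, hB0c⟩ := hinf.exists_subset_card_eq N
  set B := insert (1 : G) B0 with hBdef
  have hB1 : (1 : G) ∈ B := by simp [hBdef]
  have hBH : ∀ x ∈ B, x ∈ H := by
    intro x hx
    rw [hBdef, Finset.mem_insert] at hx
    rcases hx with rfl | hx
    · exact H.one_mem
    · exact hB0 hx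
  have hBc : N ≤ B.card := by
    rw [← hB0c]; exact Finset.card_le_card (Finset.subset_insert _ _)
  have hBδ : 1 ≤ (B.card : ℝ) * δ ^ 2 := by
    have h1 : (N : ℝ) ≤ B.card := by exact_mod_cast hBc
    have h2 : 0 < δ ^ 2 := by positivity
    have h3 : 1 / δ ^ 2 < B.card := lt_of_lt_of_le hN h1
    rw [div_lt_iff₀ h2] at h3
    exact h3.le
  let T : Finset G := B ∪ B.image (fun x => g * x) ∪ B.image (fun x => x * g) ∪
    B.image (fun x => g * x * g)
  refine criterion a b T (by simp [T, hB1]) ?_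
  intro E
  have hsub : intr T E ⊆ pr g (intr B (pr g E)) := by
    intro x hx
    rw [intr, Finset.mem_filter] at hx
    obtain ⟨hxE, hxT⟩ := hx
    have t1 : ∀ u ∈ B, x * u ∈ E := fun u hu => hxT u (by simp [T, hu])
    have t2 : ∀ u ∈ B, x * g * u ∈ E := fun u hu => by
      rw [mul_assoc]; exact hxT (g * u) (by simp [T, hu])
    have t3 : ∀ u ∈ B, x * u * g ∈ E := fun u hu => by
      rw [mul_assoc]
      exact hxT (u * g) (by simp only [T, Finset.mem_union, Finset.mem_image]; exact Or.inl (Or.inr ⟨u, hu, rfl⟩))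
    have t4 : ∀ u ∈ B, x * g * u * g ∈ E := fun u hu => by
      have : x * g * u * g = x * (g * u * g) := by group
      rw [this]
      exact hxT _ (by simp only [T, Finset.mem_union, Finset.mem_image]; exact Or.inr ⟨u, hu, rfl⟩)
    have p1 : ∀ u ∈ B, x * u ∈ pr g E := fun u hu => by
      rw [pr, Finset.mem_filter]; exact ⟨t1 u hu, t3 u hu⟩
    have p2 : ∀ u ∈ B, x * g * u ∈ pr g E := fun u hu => by
      rw [pr, Finset.mem_filter]; exact ⟨t2 u hu, t4 u hu⟩
    rw [pr, Finset.mem_filter]
    constructor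
    · rw [intr, Finset.mem_filter]
      exact ⟨by simpa using p1 1 hB1, p1⟩
    · rw [intr, Finset.mem_filter]
      exact ⟨by simpa using p2 1 hB1, p2⟩
  have c1 : ((intr T E).card : ℝ) ≤ (pr g (intr B (pr g E))).card := by
    exact_mod_cast Finset.card_le_card hsub
  have c2 := h (intr B (pr g E))
  have c3 : (B.card : ℝ) * kap H (intr B (pr g E)) ≤ (pr g E).card := by
    exact_mod_cast kap_dense H B hBH (pr g E)
  have c4 := h E
  have c5 : (kap H E : ℝ) ≤ (bd a b E).card := by
    exact_mod_cast kap_le_bd htor a b hinf E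
  set i : ℝ := ((intr T E).card : ℝ)
  set j : ℝ := ((pr g (intr B (pr g E))).card : ℝ)
  set k : ℝ := (kap H (intr B (pr g E)) : ℝ)
  set l : ℝ := ((pr g E).card : ℝ)
  set m : ℝ := (kap H E : ℝ)
  set β : ℝ := (B.card : ℝ)
  have hβ : 0 ≤ β := Nat.cast_nonneg _
  have hi : 0 ≤ i := Nat.cast_nonneg _
  -- i ≤ β δ² i ≤ β δ (δ j) ≤ β δ k ≤ δ l ≤ m
  have s1 : i ≤ m := by
    calc i = 1 * i := (one_mul i).symm
      _ ≤ (β * δ ^ 2) * i := mul_le_mul_of_nonneg_right hBδ hi
      _ = (β * δ) * (δ * i) := by ring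
      _ ≤ (β * δ) * (δ * j) := by gcongr
      _ ≤ (β * δ) * k := by gcongr
      _ = δ * (β * k) := by ring
      _ ≤ δ * l := by gcongr
      _ ≤ m := c4
  have s2 : i ≤ (bd a b E).card := s1.trans c5
  exact (Nat.cast_le (α := ℝ)).1 s2

theorem dichotomy (htor : Monoid.IsTorsion G) (hno : ¬ ∃ n, 3 ≤ n ∧ Parad G 3 n) (a b : G)
    (hinf : (Subgroup.closure {a, b} : Set G).Infinite) :
    (∀ δ : ℝ, 0 < δ → ∃ E : Finset G, ((bd a b E).card : ℝ) < δ * E.card) ∧
    (∀ g : G, ∀ δ : ℝ, 0 < δ → ∃ E : Finset G,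
      (kap (Subgroup.closure {a, b}) E : ℝ) < δ * (pr g E).card) := by
  constructor
  · intro δ hδ
    by_contra hcon
    push Not at hcon
    exact hno (nonamenable_case a b δ hδ hcon)
  · intro g δ hδ
    by_contra hcon
    push Not at hcon
    exact hno (expensive_case htor a b g hinf δ hδ hcon)

end upper

end Pool.Agent.H33.TG
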