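import Pool.Agent.H33.TG.Graphing
import Pool.Agent.H33.TG.Paradox

set_option autoImplicit false

/-!
Cheap graphings.
-/

open MeasureTheory ProbabilityTheory

namespace Pool.Agent.H33.TG

variable {G : Type} [Group G] [Countable G]

lemma cst_union_le (B B1 : G → Set (G → ℝ)) : cst (fun g => B g ∪ B1 g) ≤ cst B + cst B1 := by
  calc cst (fun g => B g ∪ B1 g) ≤ ∑' g, (bern G (B g) + bern G (B1 g)) :=
        ENNReal.tsum_le_tsum (fun g => measure_union_le _ _)
    _ = cst B + cst B1 := ENNReal.tsum_add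

open Classical in
/-- a single piece -/
noncomputable def sing (q : G) (D : Set (G → ℝ)) : G → Set (G → ℝ) := fun g => if g = q then D else ∅

lemma cst_sing (q : G) (D : Set (G → ℝ)) : cst (sing q D) = bern G D := by
  classical
  rw [cst, tsum_eq_single q]
  · simp [sing]
  · intro g hg; simp [sing, hg]

lemma meas_sing (q : G) {D : Set (G → ℝ)} (hD : MeasurableSet D) (g : G) :
    MeasurableSet (sing q D g) := by
  classical
  unfold sing
  split_ifs
  · exact hD
  · exact MeasurableSet.empty

lemma sing_self (q : G) (D : Set (G → ℝ)) : sing q D q = D := by simp [sing]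

open Classical in
/-- a piece `D ∩ Emin K k` for each `k` in `K` -/
noncomputable def fam (K : Finset G) (D : Set (G → ℝ)) : G → Set (G → ℝ) :=
  fun g => if g ∈ K then D ∩ Emin K g else ∅

lemma cst_fam (K : Finset G) {D : Set (G → ℝ)} (hD : MeasurableSet D) :
    cst (fam K D) ≤ bern G D := by
  classical
  rw [cst, tsum_eq_sum (s := K)]
  · refine le_trans (le_of_eq ?_) (sum_Emin_le K D hD)
    apply Finset.sum_congr rfl
    intro k hk
    simp [fam, hk]
  · intro g hg; simp [fam, hg]

lemma meas_fam (K : Finset G) {D : Set (G → ℝ)} (hD : MeasurableSet D) (g : G) :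
    MeasurableSet (fam K D g) := by
  classical
  unfold fam
  split_ifs
  · exact hD.inter (measurableSet_Emin K g)
  · exact MeasurableSet.empty

lemma mem_fam {K : Finset G} {D : Set (G → ℝ)} {g : G} {ω : G → ℝ} (hg : g ∈ K) (h : ω ∈ D)
    (h' : ω ∈ Emin K g) : ω ∈ fam K D g := by
  classical
  simp only [fam]
  rw [if_pos hg]; exact ⟨h, h'⟩

lemma sh_injective (p : G) {ω : G → ℝ} (hω : Function.Injective ω) :
    Function.Injective (sh p ω) := fun x y h => mul_left_cancel (hω h)

/-- Lemma F: passing from a finite subgroup to a larger one -/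
lemma adds_finite (H K : Subgroup G) (hK : (K : Set G).Finite) (hHK : H ≤ K) :
    Adds (H : Set G) (K : Set G) ((Nat.card H : ENNReal)⁻¹) := by
  classical
  have hH : (H : Set G).Finite := hK.subset hHK
  set Hf := hH.toFinset with hHf
  set Kf := hK.toFinset with hKf
  have mH : ∀ g, g ∈ Hf ↔ g ∈ H := fun g => by rw [hHf, Set.Finite.mem_toFinset]; rfl
  have mK : ∀ g, g ∈ Kf ↔ g ∈ K := fun g => by rw [hKf, Set.Finite.mem_toFinset]; rfl
  have hcard : Nat.card H = Hf.card := Nat.card_eq_card_finite_toFinset hH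
  refine ⟨fam Kf (Emin Hf 1), fun g => meas_fam Kf (measurableSet_Emin Hf 1) g, ?_, ?_⟩
  · refine (cst_fam Kf (measurableSet_Emin Hf 1)).trans ?_
    rw [hcard]
    exact bern_Emin_le Hf ((mH 1).2 H.one_mem)
  · intro B' hB' hS k hk
    have hk' : k ∈ K := hk
    show ∀ᵐ ω ∂bern G, Conn B' ω 1 k
    filter_upwards [bern_inj, Gen_all B'] with ω hω hG
    have claim : ∀ p ∈ K, ∃ m ∈ K, Conn B' ω p m ∧ ∀ v ∈ K, v ≠ m → ω m < ω v := by
      intro p hp
      obtain ⟨u, hu, huE⟩ := exists_Emin (U := Hf) ⟨1, (mH 1).2 H.one_mem⟩ (sh_injective p hω)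
      have hu' : u ∈ H := (mH u).1 hu
      have c1 : Conn B' ω p (p * u) := hG p u (hS hu')
      obtain ⟨w, hw, hwE⟩ := exists_Emin (U := Kf) ⟨1, (mK 1).2 K.one_mem⟩
        (sh_injective (p * u) hω)
      have hw' : w ∈ K := (mK w).1 hw
      have hpu : p * u ∈ K := K.mul_mem hp (hHK hu')
      have c2 : sh (p * u) ω ∈ Emin Hf 1 := by
        intro v hv hv1
        show ω (p * u * 1) < ω (p * u * v)
        have := huE (u * v) ((mH _).2 (H.mul_mem hu' ((mH v).1 hv))) (by simpa using hv1)
        have h3 : ω (p * u) < ω (p * (u * v)) := this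
        rwa [mul_one, mul_assoc]
      have c3 : Conn B' ω (p * u) (p * u * w) :=
        Conn.step (hB' w (mem_fam hw c2 hwE))
      refine ⟨p * u * w, K.mul_mem hpu hw', c1.trans c3, ?_⟩
      intro v hv hvm
      have := hwE ((p * u)⁻¹ * v) ((mK _).2 (K.mul_mem (K.inv_mem hpu) hv)) (by
        intro h; apply hvm; rw [← h]; group)
      have h3 : ω (p * u * w) < ω (p * u * ((p * u)⁻¹ * v)) := this
      rwa [mul_inv_cancel_left] at h3
    obtain ⟨m, hm, hm1, hm2⟩ := claim 1 K.one_mem
    obtain ⟨m', hm', hm1', hm2'⟩ := claim k hk'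
    have : m = m' := by
      by_contra hne
      have a1 := hm2 m' hm' (fun h => hne h.symm)
      have a2 := hm2' m hm hne
      exact absurd a1 (not_lt.2 a2.le)
    subst this
    exact hm1.trans hm1'.symm

/-- a finite group has cost at most one -/
lemma adds_base (K : Subgroup G) (hK : (K : Set G).Finite) : Adds (∅ : Set G) (K : Set G) 1 := by
  have h := adds_finite ⊥ K hK bot_le
  have h1 : ((Nat.card (⊥ : Subgroup G) : ENNReal)⁻¹) = 1 := by simp
  rw [h1] at h
  obtain ⟨B, hm, hB, h⟩ := h
  refine ⟨B, hm, hB, fun B' hB' _ => h B' hB' ?_⟩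
  intro x hx
  have : x = 1 := by simpa using hx
  rw [this]; exact (Gen B').one_mem

section tile

variable [DecidableEq G]

/-- inverses of the tile -/
def Fi (F : Finset G) : Finset G := F.image (fun x => x⁻¹)

/-- two neighbouring windows -/
def UU (F : Finset G) (q : G) : Finset G := Fi F ∪ (Fi F).image (fun x => q * x)

/-- the part of the windows that separates them -/
def DD (F : Finset G) (q : G) : Finset G :=
  (UU F q).filter (fun u => ¬ (u ∈ Fi F ∧ q⁻¹ * u ∈ Fi F))

/-- bad event -/
def Bad (F : Finset G) (q : G) : Set (G → ℝ) := ⋃ u ∈ DD F q, Emin (UU F q) u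

omit [Countable G] in
lemma meas_Bad (F : Finset G) (q : G) : MeasurableSet (Bad F q) :=
  Finset.measurableSet_biUnion _ (fun u _ => measurableSet_Emin _ u)

omit [Countable G] in
lemma card_DD_le (F : Finset G) (q : G) :
    (DD F q).card ≤ 2 * (F.filter (fun x => x * q ∉ F)).card := by
  -- D ⊆ (Fi \ q Fi) ∪ (q Fi \ Fi)
  have hFi : ∀ u, u ∈ Fi F ↔ u⁻¹ ∈ F := by
    intro u
    simp only [Fi, Finset.mem_image]
    constructor
    · rintro ⟨x, hx, rfl⟩; simpa using hx
    · intro h; exact ⟨u⁻¹, h, by simp⟩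
  have hsub : DD F q ⊆ (F.filter (fun x => x * q ∉ F)).image (fun x => x⁻¹) ∪
      (F.filter (fun x => x * q⁻¹ ∉ F)).image (fun x => q * x⁻¹) := by
    intro u hu
    rw [DD, Finset.mem_filter] at hu
    obtain ⟨hu1, hu2⟩ := hu
    rw [UU, Finset.mem_union] at hu1
    rw [Finset.mem_union]
    rcases hu1 with h | h
    · left
      rw [Finset.mem_image]
      refine ⟨u⁻¹, ?_, by simp⟩
      rw [Finset.mem_filter]
      refine ⟨(hFi u).1 h, ?_⟩
      intro h'
      apply hu2
      refine ⟨h, ?_⟩
      rw [hFi]; simpa using h'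
    · by_cases hf : u ∈ Fi F
      · left
        rw [Finset.mem_image]
        refine ⟨u⁻¹, ?_, by simp⟩
        rw [Finset.mem_filter]
        refine ⟨(hFi u).1 hf, ?_⟩
        intro h'
        apply hu2
        refine ⟨hf, ?_⟩
        rw [hFi]; simpa using h'
      · right
        rw [Finset.mem_image] at h
        obtain ⟨v, hv, rfl⟩ := h
        rw [Finset.mem_image]
        refine ⟨v⁻¹, ?_, by simp⟩
        rw [Finset.mem_filter]
        refine ⟨(hFi v).1 hv, ?_⟩
        intro h'
        apply hf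
        rw [hFi]; simpa using h'
  have hcount : (F.filter (fun x => x * q⁻¹ ∉ F)).card = (F.filter (fun x => x * q ∉ F)).card := by
    have h1 := Finset.card_filter_add_card_filter_not (s := F) (fun x => x * q⁻¹ ∉ F)
    have h2 := Finset.card_filter_add_card_filter_not (s := F) (fun x => x * q ∉ F)
    have h3 : (F.filter (fun x => ¬ x * q⁻¹ ∉ F)).card = (F.filter (fun x => ¬ x * q ∉ F)).card := by
      apply Finset.card_bij (fun x _ => x * q⁻¹)
      · intro x hx
        rw [Finset.mem_filter, not_not] at hx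
        rw [Finset.mem_filter, not_not]
        exact ⟨hx.2, by simpa using hx.1⟩
      · intro x _ y _ h
        exact mul_right_cancel h
      · intro y hy
        rw [Finset.mem_filter, not_not] at hy
        refine ⟨y * q, ?_, by simp⟩
        rw [Finset.mem_filter, not_not]
        exact ⟨hy.2, by simpa using hy.1⟩
    omega
  calc (DD F q).card ≤ _ := Finset.card_le_card hsub
    _ ≤ _ := Finset.card_union_le _ _
    _ ≤ (F.filter (fun x => x * q ∉ F)).card + (F.filter (fun x => x * q⁻¹ ∉ F)).card :=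
      add_le_add Finset.card_image_le Finset.card_image_le
    _ = _ := by rw [hcount]; ring

omit [Countable G] in
lemma bern_Bad_le (F : Finset G) (hF : F.Nonempty) (q : G) :
    bern G (Bad F q) ≤ (2 * (F.filter (fun x => x * q ∉ F)).card : ENNReal) / F.card := by
  have hc : F.card ≤ (UU F q).card := by
    have : (Fi F).card = F.card := Finset.card_image_of_injective _ inv_injective
    rw [← this]
    exact Finset.card_le_card Finset.subset_union_left
  calc bern G (Bad F q) ≤ ∑ u ∈ DD F q, bern G (Emin (UU F q) u) :=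
        measure_biUnion_finset_le _ _
    _ ≤ ∑ u ∈ DD F q, ((UU F q).card : ENNReal)⁻¹ :=
        Finset.sum_le_sum (fun u hu => bern_Emin_le _ (Finset.mem_filter.1 hu).1)
    _ = (DD F q).card * ((UU F q).card : ENNReal)⁻¹ := by
        rw [Finset.sum_const, nsmul_eq_mul]
    _ ≤ (2 * (F.filter (fun x => x * q ∉ F)).card : ENNReal) * (F.card : ENNReal)⁻¹ := by
        apply mul_le_mul'
        · exact_mod_cast card_DD_le F q
        · apply ENNReal.inv_le_inv.2
          exact_mod_cast hc
    _ = _ := by rw [div_eq_mul_inv]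

lemma tile_gen (F : Finset G) (hF : F.Nonempty) (q : G) (B' : G → Set (G → ℝ))
    (h1 : ∀ g, fam (Fi F) Set.univ g ⊆ B' g) (h2 : Bad F q ⊆ B' q) : q ∈ Gen B' := by
  rw [mem_Gen]
  filter_upwards [bern_inj] with ω hω
  have hUne : (UU F q).Nonempty := by
    obtain ⟨x, hx⟩ := hF
    exact ⟨x⁻¹, Finset.mem_union_left _ (Finset.mem_image_of_mem _ hx)⟩
  obtain ⟨u, hu, huE⟩ := exists_Emin hUne hω
  by_cases hu2 : u ∈ Fi F ∧ q⁻¹ * u ∈ Fi F
  · have c1 : Conn B' ω 1 (1 * u) := by
      apply Conn.step
      apply h1 u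
      apply mem_fam hu2.1 (Set.mem_univ _)
      rw [sh_one]
      intro v hv hvu
      exact huE v (Finset.mem_union_left _ hv) hvu
    have c2 : Conn B' ω q (q * (q⁻¹ * u)) := by
      apply Conn.step
      apply h1 (q⁻¹ * u)
      apply mem_fam hu2.2 (Set.mem_univ _)
      intro v hv hvu
      show ω (q * (q⁻¹ * u)) < ω (q * v)
      rw [mul_inv_cancel_left]
      refine huE (q * v) (Finset.mem_union_right _ (Finset.mem_image_of_mem _ hv)) ?_
      intro h; apply hvu; rw [← h]; simp
    rw [one_mul] at c1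
    rw [mul_inv_cancel_left] at c2
    exact c1.trans c2.symm
  · have : ω ∈ Bad F q := by
      simp only [Bad, Set.mem_iUnion]
      exact ⟨u, by rw [DD, Finset.mem_filter]; exact ⟨hu, hu2⟩, huE⟩
    have c := Conn.step (B := B') (ω := ω) (p := 1) (q := q) (by rw [sh_one]; exact h2 this)
    rwa [one_mul] at c

lemma adds_tile (a b : G)
    (h : ∀ δ : ℝ, 0 < δ → ∃ E : Finset G, ((bd a b E).card : ℝ) < δ * E.card)
    (ε : ℝ) (hε : 0 < ε) : Adds (∅ : Set G) {a, b} (1 + ENNReal.ofReal ε) := by
  obtain ⟨F, hFδ⟩ := h (ε / 4) (by positivity)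
  have hF0 : 0 < F.card := by
    by_contra h0
    have h0' : F.card = 0 := by omega
    rw [h0'] at hFδ
    simp only [Nat.cast_zero, mul_zero] at hFδ
    exact absurd hFδ (not_lt.2 (Nat.cast_nonneg _))
  have hF : F.Nonempty := Finset.card_pos.1 hF0
  have hbad : ∀ q, (F.filter (fun x => x * q ∉ F)).card ≤ (bd a b F).card →
      bern G (Bad F q) ≤ ENNReal.ofReal (ε / 2) := by
    intro q hq
    refine (bern_Bad_le F hF q).trans ?_
    have hc0 : (F.card : ENNReal) ≠ 0 := by exact_mod_cast hF0.ne'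
    rw [ENNReal.div_le_iff hc0 (ENNReal.natCast_ne_top _)]
    have h3 : (2 * (F.filter (fun x => x * q ∉ F)).card : ℝ) ≤ ε / 2 * F.card := by
      have : ((F.filter (fun x => x * q ∉ F)).card : ℝ) ≤ (bd a b F).card := by exact_mod_cast hq
      nlinarith
    have h4 : (2 * (F.filter (fun x => x * q ∉ F)).card : ENNReal) =
        ENNReal.ofReal (2 * (F.filter (fun x => x * q ∉ F)).card : ℝ) := by
      rw [ENNReal.ofReal_mul (by norm_num)]
      simp
    have h5 : ENNReal.ofReal (ε / 2) * (F.card : ENNReal) = ENNReal.ofReal (ε / 2 * F.card) := by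
      rw [ENNReal.ofReal_mul (by positivity)]
      simp
    rw [h4, h5]
    exact ENNReal.ofReal_le_ofReal h3
  have ha : (F.filter (fun x => x * a ∉ F)).card ≤ (bd a b F).card := by
    apply Finset.card_le_card
    intro x hx
    rw [Finset.mem_filter] at hx
    rw [bd, Finset.mem_filter]
    exact ⟨hx.1, Or.inl hx.2⟩
  have hb : (F.filter (fun x => x * b ∉ F)).card ≤ (bd a b F).card := by
    apply Finset.card_le_card
    intro x hx
    rw [Finset.mem_filter] at hx
    rw [bd, Finset.mem_filter]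
    exact ⟨hx.1, Or.inr hx.2⟩
  refine ⟨fun g => fam (Fi F) Set.univ g ∪ (sing a (Bad F a) g ∪ sing b (Bad F b) g), ?_, ?_, ?_⟩
  · intro g
    exact (meas_fam _ MeasurableSet.univ g).union
      ((meas_sing a (meas_Bad F a) g).union (meas_sing b (meas_Bad F b) g))
  · refine (cst_union_le _ _).trans ?_
    apply add_le_add
    · refine (cst_fam _ MeasurableSet.univ).trans ?_
      simp
    · refine (cst_union_le _ _).trans ?_
      rw [cst_sing, cst_sing]
      calc bern G (Bad F a) + bern G (Bad F b) ≤ ENNReal.ofReal (ε / 2) + ENNReal.ofReal (ε / 2) :=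
            add_le_add (hbad a ha) (hbad b hb)
        _ = ENNReal.ofReal ε := by
            rw [← ENNReal.ofReal_add (by positivity) (by positivity)]; congr 1; ring
  · intro B' hB' _ q hq
    have hq' : q = a ∨ q = b := by simpa using hq
    apply tile_gen F hF q B' (fun g => Set.subset_union_left.trans (hB' g))
    rcases hq' with rfl | rfl
    · intro ω hω
      apply hB' q
      right; left
      rw [sing_self]; exact hω
    · intro ω hω
      apply hB' q
      right; right
      rw [sing_self]; exact hω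

end tile

section cheap

variable [DecidableEq G]

lemma adds_cheap (H : Subgroup G) (g : G)
    (h : ∀ δ : ℝ, 0 < δ → ∃ E : Finset G, (kap H E : ℝ) < δ * (pr g E).card)
    (ε : ℝ) (hε : 0 < ε) : Adds (H : Set G) {g} (ENNReal.ofReal ε) := by
  classical
  obtain ⟨t, ht0, ht⟩ : ∃ t : ℝ, 0 < t ∧ Real.exp (-t) ≤ ε / 2 := by
    refine ⟨max 1 (-Real.log (ε / 2)), lt_of_lt_of_le one_pos (le_max_left _ _), ?_⟩
    rw [← Real.le_log_iff_exp_le (by positivity)]
    have := le_max_right 1 (-Real.log (ε / 2))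
    linarith
  obtain ⟨E, hE⟩ := h (ε / (2 * t)) (by positivity)
  set W := pr g E with hW
  have hW0 : 0 < W.card := by
    by_contra h0
    have h0' : W.card = 0 := by omega
    rw [h0'] at hE
    simp only [Nat.cast_zero, mul_zero] at hE
    exact absurd hE (not_lt.2 (Nat.cast_nonneg _))
  obtain ⟨e0, he0⟩ := Finset.card_pos.1 hW0
  -- representatives
  let Q : Finset (G ⧸ H) := E.image (QuotientGroup.mk : G → G ⧸ H)
  have hQ : Q.card = kap H E := by
    rw [kap, ← Set.ncard_coe_finset, Finset.coe_image]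
  set ρ : ℝ := min (t / W.card) 1 with hρ
  have hρ0 : 0 ≤ ρ := le_min (by positivity) zero_le_one
  have hρ1 : ρ ≤ 1 := min_le_right _ _
  let A : Set (G → ℝ) := {ω | ∀ s ∈ ({e0⁻¹} : Finset G), ω s < ρ}
  have hA : MeasurableSet A := measurableSet_box _ _
  let U : Set (G → ℝ) := {ω | ∀ w ∈ W, ∃ s ∈ ({w⁻¹} : Finset G), ρ ≤ ω s}
  have hU : MeasurableSet U := by
    have : U = ⋂ w ∈ W, {ω : G → ℝ | ρ ≤ ω w⁻¹} := by
      ext ω; simp [U]
    rw [this]
    exact Finset.measurableSet_biInter _
      (fun w _ => measurableSet_le measurable_const (measurable_pi_apply _))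
  let St : G → Set (G → ℝ) := fun q => if q ∈ Q.image (fun r => e0⁻¹ * r.out) then A else ∅
  have hcSt : cst St ≤ ENNReal.ofReal (ε / 2) := by
    rw [cst, tsum_eq_sum (s := Q.image (fun r => e0⁻¹ * r.out))]
    · calc ∑ q ∈ Q.image (fun r => e0⁻¹ * r.out), bern G (St q)
          = ∑ q ∈ Q.image (fun r => e0⁻¹ * r.out), ENNReal.ofReal ρ := by
            apply Finset.sum_congr rfl
            intro q hq
            simp only [St]
            rw [if_pos hq]
            have := bern_box ({e0⁻¹} : Finset G) hρ0 hρ1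
            rw [Finset.card_singleton, pow_one] at this
            exact this
        _ = (Q.image (fun r => e0⁻¹ * r.out)).card * ENNReal.ofReal ρ := by
            rw [Finset.sum_const, nsmul_eq_mul]
        _ ≤ (kap H E : ENNReal) * ENNReal.ofReal ρ := by
            gcongr
            rw [← hQ]; exact Finset.card_image_le
        _ = ENNReal.ofReal (kap H E * ρ) := by
            rw [ENNReal.ofReal_mul (Nat.cast_nonneg _)]; simp
        _ ≤ ENNReal.ofReal (ε / 2) := by
            apply ENNReal.ofReal_le_ofReal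
            have hWr : (0 : ℝ) < W.card := by exact_mod_cast hW0
            have h1 : ρ ≤ t / W.card := min_le_left _ _
            have h2 : (kap H E : ℝ) ≤ ε / (2 * t) * W.card := hE.le
            have h3 : (0 : ℝ) ≤ kap H E := Nat.cast_nonneg _
            calc (kap H E : ℝ) * ρ ≤ kap H E * (t / W.card) := mul_le_mul_of_nonneg_left h1 h3
              _ ≤ (ε / (2 * t) * W.card) * (t / W.card) :=
                mul_le_mul_of_nonneg_right h2 (by positivity)
              _ = ε / 2 := by field_simp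
    · intro q hq
      simp only [St]
      rw [if_neg hq]; exact measure_empty
  have hcU : bern G U ≤ ENNReal.ofReal (ε / 2) := by
    have h1 := bern_blocks W (fun w => ({w⁻¹} : Finset G)) (by
      intro x _ y _ hxy
      rw [Finset.disjoint_singleton]
      exact fun h => hxy (inv_injective h)) hρ0 hρ1 1 (by simp)
    refine h1.trans ?_
    rw [pow_one]
    have h2 : (1 - ENNReal.ofReal ρ) = ENNReal.ofReal (1 - ρ) := by
      rw [ENNReal.ofReal_sub _ hρ0, ENNReal.ofReal_one]
    rw [h2, ← ENNReal.ofReal_pow (by linarith)]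
    apply ENNReal.ofReal_le_ofReal
    refine le_trans ?_ ht
    have hWr : (0 : ℝ) < W.card := by exact_mod_cast hW0
    rcases le_total (t / W.card) 1 with h3 | h3
    · have h4 : ρ = t / W.card := min_eq_left h3
      have h5 : 1 - ρ ≤ Real.exp (-ρ) := by
        have := Real.add_one_le_exp (-ρ); linarith
      calc (1 - ρ) ^ W.card ≤ (Real.exp (-ρ)) ^ W.card :=
            pow_le_pow_left₀ (by linarith) h5 _
        _ = Real.exp (-t) := by
            rw [← Real.exp_nat_mul, h4]; congr 1; field_simp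
    · have h4 : ρ = 1 := min_eq_right h3
      rw [h4, sub_self, zero_pow hW0.ne']
      exact (Real.exp_pos _).le
  refine ⟨fun q => St q ∪ sing g U q, ?_, ?_, ?_⟩
  · intro q
    refine MeasurableSet.union ?_ (meas_sing g hU q)
    simp only [St]
    split_ifs
    · exact hA
    · exact MeasurableSet.empty
  · refine (cst_union_le _ _).trans ?_
    rw [cst_sing]
    calc cst St + bern G U ≤ ENNReal.ofReal (ε / 2) + ENNReal.ofReal (ε / 2) := add_le_add hcSt hcU
      _ = ENNReal.ofReal ε := by
          rw [← ENNReal.ofReal_add (by positivity) (by positivity)]; congr 1; ring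
  · intro B' hB' hS
    rw [Set.singleton_subset_iff]
    show ∀ᵐ ω ∂bern G, Conn B' ω 1 g
    filter_upwards [Gen_all B'] with ω hG
    by_cases hωU : ω ∈ U
    · have c := Conn.step (B := B') (ω := ω) (p := 1) (q := g) (by
        rw [sh_one]; apply hB' g; right; rw [sing_self]; exact hωU)
      rwa [one_mul] at c
    · have hωU' : ∃ w ∈ W, ω w⁻¹ < ρ := by
        by_contra hcon
        push Not at hcon
        exact hωU (fun w hw => ⟨w⁻¹, by simp, hcon w hw⟩)
      obtain ⟨w, hw, hwρ⟩ := hωU'
      have hwE : w ∈ E ∧ w * g ∈ E := by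
        rw [hW, pr, Finset.mem_filter] at hw; exact hw
      -- from w⁻¹ e0 to w⁻¹ e for e in E
      have key : ∀ e ∈ E, Conn B' ω (w⁻¹ * e0) (w⁻¹ * e) := by
        intro e he
        let r : G ⧸ H := QuotientGroup.mk e
        have hr : r ∈ Q := Finset.mem_image_of_mem _ he
        have hre : (r.out)⁻¹ * e ∈ H := by
          apply QuotientGroup.eq.1
          exact QuotientGroup.out_eq' r
        have c1 : Conn B' ω (w⁻¹ * e0) (w⁻¹ * e0 * (e0⁻¹ * r.out)) := by
          apply Conn.step
          apply hB'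
          left
          simp only [St]
          rw [if_pos (Finset.mem_image_of_mem _ hr)]
          intro s hs
          rw [Finset.mem_singleton] at hs
          subst hs
          show ω (w⁻¹ * e0 * e0⁻¹) < ρ
          rw [mul_inv_cancel_right]; exact hwρ
        have c2 := hG (w⁻¹ * e0 * (e0⁻¹ * r.out)) _ (hS hre)
        have : w⁻¹ * e0 * (e0⁻¹ * r.out) * ((r.out)⁻¹ * e) = w⁻¹ * e := by group
        rw [this] at c2
        exact c1.trans c2
      have k1 := key w hwE.1
      have k2 := key (w * g) hwE.2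
      rw [inv_mul_cancel] at k1
      rw [inv_mul_cancel_left] at k2
      exact k1.symm.trans k2

end cheap

section expo

/-- large conflict-free subsets -/
lemma indep_subset {α : Type} [DecidableEq α] (r : α → α → Prop) (hs : ∀ x y, r x y → r y x)
    (D : ℕ) (m : ℕ) : ∀ Y : Finset α,
    (∀ x ∈ Y, ∀ Z : Finset α, Z ⊆ Y → (∀ z ∈ Z, r x z) → Z.card ≤ D) → m * (D + 1) ≤ Y.card →
    ∃ Y' : Finset α, Y' ⊆ Y ∧ Y'.card = m ∧ ∀ x ∈ Y', ∀ y ∈ Y', x ≠ y → ¬ r x y := by
  classical
  induction m with
  | zero =>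
    intro Y _ _
    exact ⟨∅, Finset.empty_subset _, rfl, by simp⟩
  | succ m ih =>
    intro Y hY hcard
    have hpos : 0 < Y.card := by
      have : 0 < (m + 1) * (D + 1) := by positivity
      omega
    obtain ⟨y, hy⟩ := Finset.card_pos.1 hpos
    let Z := Y.filter (fun z => r y z)
    have hZ : Z.card ≤ D := hY y hy Z (Finset.filter_subset _ _)
      (fun z hz => (Finset.mem_filter.1 hz).2)
    let Y1 := (Y \ Z).erase y
    have hY1 : Y1 ⊆ Y := (Finset.erase_subset _ _).trans Finset.sdiff_subset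
    have hc1 : m * (D + 1) ≤ Y1.card := by
      have h1 : (Y \ Z).card = Y.card - Z.card :=
        Finset.card_sdiff_of_subset (Finset.filter_subset _ _)
      have h2 : (Y \ Z).card - 1 ≤ Y1.card := Finset.pred_card_le_card_erase
      have h3 : (m + 1) * (D + 1) = m * (D + 1) + (D + 1) := by ring
      omega
    obtain ⟨Y', h1, h2, h3⟩ := ih Y1 (fun x hx Z' hZ' hr => hY x (hY1 hx) Z' (hZ'.trans hY1) hr) hc1
    have hyY' : y ∉ Y' := fun h => (Finset.notMem_erase y _) (h1 h)
    have hno : ∀ z ∈ Y', ¬ r y z := by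
      intro z hz hr
      have h4 := h1 hz
      have h5 := Finset.mem_of_mem_erase h4
      rw [Finset.mem_sdiff] at h5
      exact h5.2 (Finset.mem_filter.2 ⟨h5.1, hr⟩)
    refine ⟨insert y Y', ?_, ?_, ?_⟩
    · intro z hz
      rcases Finset.mem_insert.1 hz with rfl | hz
      · exact hy
      · exact hY1 (h1 hz)
    · rw [Finset.card_insert_of_notMem hyY', h2]
    · intro x hx z hz hxz
      rcases Finset.mem_insert.1 hx with hxy | hx1
      · rcases Finset.mem_insert.1 hz with hzy | hz1
        · exact absurd (hxy.trans hzy.symm) hxz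
        · rw [hxy]; exact hno z hz1
      · rcases Finset.mem_insert.1 hz with hzy | hz1
        · rw [hzy]; exact fun hr => hno x hx1 (hs _ _ hr)
        · exact h3 x hx1 z hz1 hxz

/-- thresholds -/
def thr (e m : ℕ) : ℕ → ℕ
  | 0 => 1
  | k + 1 => m * (e * e * thr e m k + 1) + thr e m k

lemma thr_mono (e m : ℕ) : Monotone (thr e m) := by
  apply monotone_nat_of_le_succ
  intro n
  simp only [thr]; omega

lemma thr_pos (e m k : ℕ) : 1 ≤ thr e m k := by
  induction k with
  | zero => simp [thr]
  | succ k ih => simp only [thr]; omega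

/-- the sunflower step -/
lemma sunflower {G : Type} [Group G] [DecidableEq G] (e m : ℕ) (he0 : 0 < e) (g : G) (X : Finset G)
    (he : ∀ x ∈ X, (g * x) ^ e = 1) (hX : thr e m e ≤ X.card) :
    ∃ (d : ℕ) (c : G) (X' : Finset G), 1 ≤ d ∧ d ≤ e ∧ X' ⊆ X ∧ X'.card = m ∧
      (∀ x ∈ X', (g * x) ^ d = c) ∧
      (∀ x ∈ X', ∀ y ∈ X', x ≠ y → ∀ i j, 1 ≤ i → i < d → 1 ≤ j → j < d →
        (g * x) ^ i ≠ (g * y) ^ j) := by
  classical
  let P : ℕ → Prop := fun d => 1 ≤ d ∧ ∃ c, thr e m d ≤ (X.filter (fun x => (g * x) ^ d = c)).card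
  have hP : ∃ d, P d := by
    refine ⟨e, he0, 1, ?_⟩
    rw [Finset.filter_true_of_mem he]; exact hX
  have hPe : P e := by
    refine ⟨he0, 1, ?_⟩
    rw [Finset.filter_true_of_mem he]; exact hX
  obtain ⟨hd1, c, hc⟩ := Nat.find_spec hP
  set d := Nat.find hP with hd
  have hde : d ≤ e := Nat.find_min' hP hPe
  have hmin : ∀ j, 1 ≤ j → j < d → ∀ c', (X.filter (fun x => (g * x) ^ j = c')).card ≤
      thr e m (d - 1) := by
    intro j hj1 hjd c'
    by_contra hcon
    push Not at hcon
    apply Nat.find_min hP hjd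
    refine ⟨hj1, c', ?_⟩
    have : thr e m j ≤ thr e m (d - 1) := thr_mono e m (by omega)
    omega
  let r : G → G → Prop := fun x y => ∃ i j, 1 ≤ i ∧ i < d ∧ 1 ≤ j ∧ j < d ∧
    (g * x) ^ i = (g * y) ^ j
  have hr : ∀ x y, r x y → r y x := by
    rintro x y ⟨i, j, h1, h2, h3, h4, h5⟩
    exact ⟨j, i, h3, h4, h1, h2, h5.symm⟩
  have hcard : m * (e * e * thr e m (d - 1) + 1) ≤
      (X.filter (fun x => (g * x) ^ d = c)).card := by
    refine le_trans ?_ hc
    have : d = (d - 1) + 1 := by omega
    conv_rhs => rw [this]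
    simp only [thr]; omega
  obtain ⟨X', h1, h2, h3⟩ := indep_subset r hr (e * e * thr e m (d - 1)) m
    (X.filter (fun x => (g * x) ^ d = c)) (by
      intro x _ Z hZ hrZ
      have hsub : Z ⊆ (Finset.Ico 1 d ×ˢ Finset.Ico 1 d).biUnion
          (fun p => X.filter (fun y => (g * y) ^ p.2 = (g * x) ^ p.1)) := by
        intro z hz
        obtain ⟨i, j, a1, a2, a3, a4, a5⟩ := hrZ z hz
        rw [Finset.mem_biUnion]
        refine ⟨(i, j), ?_, ?_⟩
        · rw [Finset.mem_product, Finset.mem_Ico, Finset.mem_Ico]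
          exact ⟨⟨a1, a2⟩, a3, a4⟩
        · rw [Finset.mem_filter]
          exact ⟨(Finset.mem_filter.1 (hZ hz)).1, a5.symm⟩
      calc Z.card ≤ _ := Finset.card_le_card hsub
        _ ≤ ∑ p ∈ Finset.Ico 1 d ×ˢ Finset.Ico 1 d,
            (X.filter (fun y => (g * y) ^ p.2 = (g * x) ^ p.1)).card := Finset.card_biUnion_le
        _ ≤ ∑ p ∈ Finset.Ico 1 d ×ˢ Finset.Ico 1 d, thr e m (d - 1) := by
            apply Finset.sum_le_sum
            intro p hp
            rw [Finset.mem_product, Finset.mem_Ico, Finset.mem_Ico] at hp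
            exact hmin p.2 hp.2.1 hp.2.2 _
        _ = ((d - 1) * (d - 1)) * thr e m (d - 1) := by
            rw [Finset.sum_const, Finset.card_product, Nat.card_Ico, smul_eq_mul]
        _ ≤ e * e * thr e m (d - 1) := by
            apply Nat.mul_le_mul_right
            exact Nat.mul_le_mul (by omega) (by omega)) hcard
  refine ⟨d, c, X', hd1, hde, h1.trans (Finset.filter_subset _ _), h2, ?_, ?_⟩
  · intro x hx
    exact (Finset.mem_filter.1 (h1 hx)).2
  · intro x hx y hy hxy i j b1 b2 b3 b4 heq
    exact h3 x hx y hy hxy ⟨i, j, b1, b2, b3, b4, heq⟩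

/-- over a large subgroup of a group of finite exponent, every element is cheap -/
lemma adds_exp (e : ℕ) (he0 : 0 < e) (he : ∀ g : G, g ^ e = 1) (ε : ℝ) (hε : 0 < ε) :
    ∃ M : ℕ, ∀ (A : Subgroup G) (X : Finset G), (∀ x ∈ X, x ∈ A) → M ≤ X.card → ∀ g : G,
      Adds (A : Set G) {g} (ENNReal.ofReal ε) := by
  classical
  set δ : ℝ := min (ε / 4) 1 with hδ
  have hδ0 : 0 < δ := lt_min (by positivity) one_pos
  have hδ1 : δ ≤ 1 := min_le_right _ _
  have hδε : δ ≤ ε / 4 := min_le_left _ _
  set q : ENNReal := 1 - ENNReal.ofReal δ ^ e with hq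
  have hq1 : q < 1 := by
    apply ENNReal.sub_lt_self ENNReal.one_ne_top one_ne_zero
    have : 0 < ENNReal.ofReal δ := ENNReal.ofReal_pos.2 hδ0
    exact (ENNReal.pow_pos this e).ne'
  have htend := ENNReal.tendsto_pow_atTop_nhds_zero_of_lt_one hq1
  have hev : ∀ᶠ n in Filter.atTop, q ^ n < ENNReal.ofReal (ε / 4) :=
    (tendsto_order.1 htend).2 _ (ENNReal.ofReal_pos.2 (by positivity))
  obtain ⟨m, hm⟩ := Filter.eventually_atTop.1 hev
  refine ⟨thr e (m + 1) e, ?_⟩
  intro A X hXA hXcard g
  obtain ⟨d, c, X', hd1, hde, hX'X, hX'c, hpow, hdis⟩ :=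
    sunflower e (m + 1) he0 g X (fun x _ => he _) hXcard
  have hX'ne : X'.Nonempty := Finset.card_pos.1 (by omega)
  obtain ⟨x1, hx1⟩ := hX'ne
  have hXA' : ∀ x ∈ X', x ∈ A := fun x hx => hXA x (hX'X hx)
  let S1 : G → Finset G := fun x => (Finset.Ico 1 d).image (fun j => (g * x) ^ j)
  let S2 : G → Finset G := fun x => {x1⁻¹ * x}
  let Op : Set (G → ℝ) := {ω | ∀ s ∈ ({1} : Finset G), ω s < δ}
  let N1 : Set (G → ℝ) := {ω | ∀ x ∈ X', ∃ s ∈ S1 x, δ ≤ ω s}
  let N2 : Set (G → ℝ) := {ω | ∀ x ∈ X', ∃ s ∈ S2 x, δ ≤ ω s}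
  have hmeas : ∀ S : G → Finset G, MeasurableSet {ω : G → ℝ | ∀ x ∈ X', ∃ s ∈ S x, δ ≤ ω s} := by
    intro S
    have : {ω : G → ℝ | ∀ x ∈ X', ∃ s ∈ S x, δ ≤ ω s} =
        ⋂ x ∈ X', ⋃ s ∈ S x, {ω : G → ℝ | δ ≤ ω s} := by
      ext ω; simp
    rw [this]
    refine Finset.measurableSet_biInter _ (fun x _ => Finset.measurableSet_biUnion _ (fun s _ => ?_))
    exact measurableSet_le measurable_const (measurable_pi_apply _)
  have hOp : bern G Op ≤ ENNReal.ofReal (ε / 4) := by
    have := bern_box ({1} : Finset G) hδ0.le hδ1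
    rw [Finset.card_singleton, pow_one] at this
    show bern G {ω | ∀ s ∈ ({1} : Finset G), ω s < δ} ≤ _
    rw [this]
    exact ENNReal.ofReal_le_ofReal hδε
  have hN1 : bern G N1 ≤ ENNReal.ofReal (ε / 4) := by
    have h1 := bern_blocks X' S1 (by
      intro x hx y hy hxy
      rw [Finset.disjoint_left]
      intro s hs hs'
      simp only [S1, Finset.mem_image, Finset.mem_Ico] at hs hs'
      obtain ⟨i, ⟨b1, b2⟩, rfl⟩ := hs
      obtain ⟨j, ⟨b3, b4⟩, h⟩ := hs'
      exact hdis x hx y hy hxy i j b1 b2 b3 b4 h.symm) hδ0.le hδ1 e (by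
      intro x _
      refine Finset.card_image_le.trans ?_
      rw [Nat.card_Ico]; omega)
    refine h1.trans ?_
    rw [hX'c]
    exact (hm (m + 1) (by omega)).le
  have hN2 : bern G N2 ≤ ENNReal.ofReal (ε / 4) := by
    have h1 := bern_blocks X' S2 (by
      intro x hx y hy hxy
      rw [Finset.disjoint_singleton]
      exact fun h => hxy (mul_left_cancel h)) hδ0.le hδ1 e (by
      intro x _
      simp only [S2, Finset.card_singleton]; omega)
    refine h1.trans ?_
    rw [hX'c]
    exact (hm (m + 1) (by omega)).le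
  refine ⟨fun q => (sing g Op q ∪ sing g N1 q) ∪ (sing g N2 q ∪ sing c Op q), ?_, ?_, ?_⟩
  · intro q
    exact ((meas_sing g (measurableSet_box _ _) q).union (meas_sing g (hmeas S1) q)).union
      ((meas_sing g (hmeas S2) q).union (meas_sing c (measurableSet_box _ _) q))
  · refine (cst_union_le _ _).trans ?_
    refine (add_le_add (cst_union_le _ _) (cst_union_le _ _)).trans ?_
    simp only [cst_sing]
    calc bern G Op + bern G N1 + (bern G N2 + bern G Op)
        ≤ ENNReal.ofReal (ε / 4) + ENNReal.ofReal (ε / 4) +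
          (ENNReal.ofReal (ε / 4) + ENNReal.ofReal (ε / 4)) :=
          add_le_add (add_le_add hOp hN1) (add_le_add hN2 hOp)
      _ = ENNReal.ofReal ε := by
          rw [← ENNReal.ofReal_add (by positivity) (by positivity),
            ← ENNReal.ofReal_add (by positivity) (by positivity)]
          congr 1; ring
  · intro B' hB' hS
    have b1 : Op ⊆ B' g := fun ω h => hB' g (Or.inl (Or.inl (by rw [sing_self]; exact h)))
    have b2 : N1 ⊆ B' g := fun ω h => hB' g (Or.inl (Or.inr (by rw [sing_self]; exact h)))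
    have b3 : N2 ⊆ B' g := fun ω h => hB' g (Or.inr (Or.inl (by rw [sing_self]; exact h)))
    have b4 : Op ⊆ B' c := fun ω h => hB' c (Or.inr (Or.inr (by rw [sing_self]; exact h)))
    rw [Set.singleton_subset_iff]
    show ∀ᵐ ω ∂bern G, Conn B' ω 1 g
    filter_upwards [Gen_all B'] with ω hG
    have hstep1 : ω ∈ B' g → Conn B' ω 1 g := by
      intro h
      have c := Conn.step (B := B') (ω := ω) (p := 1) (q := g) (by rw [sh_one]; exact h)
      rwa [one_mul] at c
    by_cases h1 : ω ∈ N1
    · exact hstep1 (b2 h1)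
    by_cases h2 : ω ∈ N2
    · exact hstep1 (b3 h2)
    have h1' : ∃ x ∈ X', ∀ s ∈ S1 x, ω s < δ := by
      by_contra hcon
      push Not at hcon
      exact h1 hcon
    have h2' : ∃ x ∈ X', ∀ s ∈ S2 x, ω s < δ := by
      by_contra hcon
      push Not at hcon
      exact h2 hcon
    obtain ⟨x, hx, hxo⟩ := h1'
    obtain ⟨y, hy, hyo⟩ := h2'
    have hop : ∀ p, ω p < δ → sh p ω ∈ Op := by
      intro p hp s hs
      rw [Finset.mem_singleton] at hs
      subst hs
      rw [sh_apply_one]; exact hp
    -- from g to c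
    have hgc : ∀ j, 1 ≤ j → j ≤ d → Conn B' ω g ((g * x) ^ j) := by
      intro j hj
      induction j, hj using Nat.le_induction with
      | base =>
        intro _
        rw [pow_one]
        exact hG g x (hS (hXA' x hx))
      | succ j hj ih =>
        intro hjd
        have c1 := ih (by omega)
        have hopen : ω ((g * x) ^ j) < δ := by
          apply hxo
          simp only [S1, Finset.mem_image, Finset.mem_Ico]
          exact ⟨j, ⟨hj, by omega⟩, rfl⟩
        have c2 : Conn B' ω ((g * x) ^ j) ((g * x) ^ j * g) := Conn.step (b1 (hop _ hopen))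
        have c3 := hG ((g * x) ^ j * g) x (hS (hXA' x hx))
        have : (g * x) ^ j * g * x = (g * x) ^ (j + 1) := by rw [pow_succ, mul_assoc]
        rw [this] at c3
        exact (c1.trans c2).trans c3
    have k1 : Conn B' ω g c := by
      have := hgc d hd1 le_rfl
      rwa [hpow x hx] at this
    -- from 1 to c
    have hu : x1⁻¹ * y ∈ A := A.mul_mem (A.inv_mem (hXA' x1 hx1)) (hXA' y hy)
    have huo : ω (x1⁻¹ * y) < δ := hyo _ (by simp [S2])
    have k2 : Conn B' ω 1 (x1⁻¹ * y) := by
      have := hG 1 _ (hS hu)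
      rwa [one_mul] at this
    have k3 : Conn B' ω (x1⁻¹ * y) (x1⁻¹ * y * c) := Conn.step (b4 (hop _ huo))
    have hcomm : x1⁻¹ * y * c = c * (x1⁻¹ * y) := by
      have e1 : c * (g * x1) = (g * x1) * c := by
        rw [← hpow x1 hx1]; exact (Commute.pow_self _ _).eq
      have e2 : c * (g * y) = (g * y) * c := by
        rw [← hpow y hy]; exact (Commute.pow_self _ _).eq
      have e3 : x1⁻¹ * y = (g * x1)⁻¹ * (g * y) := by group
      have e4 : Commute c ((g * x1)⁻¹ * (g * y)) :=
        (Commute.inv_right (show Commute c (g * x1) from e1)).mul_right e2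
      rw [e3]; exact e4.eq.symm
    have k4 : Conn B' ω c (c * (x1⁻¹ * y)) := hG c _ (hS hu)
    rw [hcomm] at k3
    exact ((k2.trans k3).trans k4.symm).trans k1.symm

end expo

end Pool.Agent.H33.TG
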